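import Mathlib

/-!
# MP_7fe4b4_ag, job H-Transp : transport of the count along a ring isomorphism

Proof: the map `N → N'`, `a ↦ e a` is an additive (and `ℂ`-linear) isomorphism which maps `n • ⊤` onto `n' • ⊤`
(`n • ⊤ ⊂ N` is the set of finite sums `∑ x_i a_i`, `x_i ∈ n`, `a_i ∈ N`).  So it induces a `ℂ`-linear isomorphism of the quotients.
(e.g. via `Submodule.smul_induction_on` in both directions.)
-/

noncomputable section

namespace CMT

theorem Transp_aux {A A' : Type*} [CommRing A] [CommRing A'] [Algebra ℂ A] [Algebra ℂ A']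
    (e : A ≃ₐ[ℂ] A') (N n : Ideal A) (N' n' : Ideal A') (hN : ∀ a, a ∈ N → e a ∈ N')
    (hn : ∀ a, a ∈ n → e a ∈ n') (x : N) (hx : x ∈ n • (⊤ : Submodule A N)) :
    (⟨e x.1, hN x.1 x.2⟩ : N') ∈ n' • (⊤ : Submodule A' N') := by
  refine Submodule.smul_induction_on (p := fun y : N => (⟨e y.1, hN y.1 y.2⟩ : N') ∈
    n' • (⊤ : Submodule A' N')) hx ?_ ?_
  · intro r hr y _
    have h1 : (⟨e (r • y).1, hN (r • y).1 (r • y).2⟩ : N') =
        (e r) • (⟨e y.1, hN y.1 y.2⟩ : N') := by
      apply Subtype.ext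
      simp
    rw [h1]
    exact Submodule.smul_mem_smul (hn r hr) Submodule.mem_top
  · intro y z hy hz
    have h1 : (⟨e (y + z).1, hN (y + z).1 (y + z).2⟩ : N') =
        (⟨e y.1, hN y.1 y.2⟩ : N') + (⟨e z.1, hN z.1 z.2⟩ : N') := by
      apply Subtype.ext
      simp
    rw [h1]
    exact Submodule.add_mem _ hy hz

/-- transport of the count along a ring isomorphism -/
theorem finrank_transport {A A' : Type*} [CommRing A] [CommRing A'] [Algebra ℂ A] [Algebra ℂ A']
    (e : A ≃ₐ[ℂ] A') (N n : Ideal A) (N' n' : Ideal A') (hN : ∀ a, a ∈ N ↔ e a ∈ N')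
    (hn : ∀ a, a ∈ n ↔ e a ∈ n') :
    Module.finrank ℂ (N ⧸ (n • (⊤ : Submodule A N))) =
      Module.finrank ℂ (N' ⧸ (n' • (⊤ : Submodule A' N'))) := by
  have hN' : ∀ b, b ∈ N' → e.symm b ∈ N := fun b hb => (hN _).2 (by simpa using hb)
  have hn' : ∀ b, b ∈ n' → e.symm b ∈ n := fun b hb => (hn _).2 (by simpa using hb)
  let φ : N ≃ₗ[ℂ] N' :=
    { toFun := fun a => ⟨e a.1, (hN a.1).1 a.2⟩
      invFun := fun b => ⟨e.symm b.1, hN' b.1 b.2⟩
      map_add' := fun x y => by
        apply Subtype.ext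
        simp
      map_smul' := fun c x => by
        apply Subtype.ext
        change e (c • x.1) = c • e x.1
        exact map_smul e c x.1
      left_inv := fun x => by
        apply Subtype.ext
        simp
      right_inv := fun x => by
        apply Subtype.ext
        simp }
  have hmap : ((n • (⊤ : Submodule A N)).restrictScalars ℂ).map (φ : N →ₗ[ℂ] N') =
      (n' • (⊤ : Submodule A' N')).restrictScalars ℂ := by
    ext y
    constructor
    · rintro ⟨x, hx, rfl⟩
      exact Transp_aux e N n N' n' (fun a ha => (hN a).1 ha) (fun a ha => (hn a).1 ha) x hx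
    · intro hy
      refine ⟨φ.symm y, ?_, by simp⟩
      exact Transp_aux e.symm N' n' N n hN' hn' y hy
  have h1 := (Submodule.Quotient.restrictScalarsEquiv ℂ (n • (⊤ : Submodule A N))).finrank_eq
  have h2 := (Submodule.Quotient.restrictScalarsEquiv ℂ (n' • (⊤ : Submodule A' N'))).finrank_eq
  have h3 := (Submodule.Quotient.equiv _ _ φ hmap).finrank_eq
  rw [← h1, ← h2, h3]

end CMT
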