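import Pool.Agent.H43.CM.C.C4

/-!
# MP_7fe4b4_ag, job H-Abs1 : `R[τ] ∩ τ^m R[τ⁻¹] = ∑_{i ≤ m} R τ^i`

`→` is `C4` (C/C4.lean; `adj R t = Algebra.adjoin R {t}` by definition) rewritten as membership in a span
(`Submodule.sum_mem`, `Algebra.smul_def`).
`←`: `Submodule.span_induction` : the set of `y` with the left property is an `R`-submodule containing each `τ^i`, `i ≤ m`:
`τ^i ∈ Algebra.adjoin R {τ}` and `τ^i = τ^m * (τ⁻¹)^(m - i)`.
-/

noncomputable section

namespace CMT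

variable {R : Type} [CommRing R] [IsDomain R] [IsIntegrallyClosed R] {K : Type} [Field K]
  [Algebra R K] [IsFractionRing R K]

/-- (C4) -/
theorem mem_span_pow_iff (τ : K) (hτ : τ ≠ 0) (m : ℕ) (y : K) :
    (y ∈ Algebra.adjoin R {τ} ∧ ∃ y' ∈ Algebra.adjoin R {τ⁻¹}, y = τ ^ m * y') ↔
      y ∈ Submodule.span R (Set.range fun i : Fin (m + 1) => τ ^ (i : ℕ)) := by
  constructor
  · rintro ⟨h1, h2⟩
    obtain ⟨c, hc⟩ := C4 (R := R) τ hτ m y h1 h2
    rw [hc]
    refine Submodule.sum_mem _ fun i _ => ?_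
    rw [← Algebra.smul_def]
    exact Submodule.smul_mem _ _ (Submodule.subset_span ⟨i, rfl⟩)
  · intro h
    induction h using Submodule.span_induction with
    | mem x hx =>
      obtain ⟨i, rfl⟩ := hx
      refine ⟨Subalgebra.pow_mem _ (Algebra.self_mem_adjoin_singleton R τ) _,
        τ⁻¹ ^ (m - (i : ℕ)), Subalgebra.pow_mem _ (Algebra.self_mem_adjoin_singleton R τ⁻¹) _, ?_⟩
      have hi : (i : ℕ) + (m - (i : ℕ)) = m := by
        have := i.2
        omega
      have h1 : τ ^ m = τ ^ (i : ℕ) * τ ^ (m - (i : ℕ)) := by rw [← pow_add, hi]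
      change τ ^ (i : ℕ) = _
      rw [h1, mul_assoc, ← mul_pow, mul_inv_cancel₀ hτ, one_pow, mul_one]
    | zero => exact ⟨Subalgebra.zero_mem _, 0, Subalgebra.zero_mem _, by rw [mul_zero]⟩
    | add x z _ _ hx hz =>
      obtain ⟨h1, x', hx', h2⟩ := hx
      obtain ⟨h3, z', hz', h4⟩ := hz
      exact ⟨Subalgebra.add_mem _ h1 h3, x' + z', Subalgebra.add_mem _ hx' hz', by
        rw [mul_add, ← h2, ← h4]⟩
    | smul r x _ hx =>
      obtain ⟨h1, x', hx', h2⟩ := hx
      exact ⟨Subalgebra.smul_mem _ h1 _, r • x', Subalgebra.smul_mem _ hx' _, by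
        rw [mul_smul_comm, ← h2]⟩

end CMT
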