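import Pool.Agent.H43.CM.H.Abs1

/-!
# MP_7fe4b4_ag, job H-Abs2 : (H2) + (H4), abstract

Write `A+ = R[τ]`, `A- = R[τ⁻¹]` (`Algebra.adjoin`), `bb = ⨅ Pb i`, `J = span {τ^i : i ≤ m}`; `c ∈ R` is identified with its image in `K`.
`ccI bb τ = {c ∈ bb : c τ ∈ bb}` (C/Tau.lean), `C1_adj` (C/Ker.lean): `A+ ∩ A- = R`.

`→`.  Let `c ∈ bb` and `c τ = c'`, `c' ∈ bb`.  `c ∈ A+` and for all `i`: `c ∈ Pb i` so `c ∈ BU i` (`h4`).  By `hU` there is `y ∈ A+`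
with `c = F y`.  Similarly `c' ∈ A-` and `c' ∈ BS i` for all `i` (`h5`), so by `hS` `c' = F τ^(m+1) y'` with `y' ∈ A-`.
So `F y τ = c τ = c' = F τ^(m+1) y'`, hence `y = τ^m y'`.  `mem_span_pow_iff`: `y ∈ J`.
`←`.  Let `y ∈ J`, `c = F y`.  By `mem_span_pow_iff`: `y ∈ A+`, `y = τ^m y'`, `y' ∈ A-`.  By `hU` (direction `←`) `c ∈ A+` and
`c ∈ BU i` for all `i`, so `c ∈ Pb i` for all `i` (`h4`): `c ∈ bb`.  `c τ = F τ^(m+1) y'`, by `hS` (`←`) `c τ ∈ A-`; also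
`c τ ∈ A+` (`c ∈ R`).  `C1_adj`: `c τ = c'` with `c' ∈ R`.  `c τ ∈ BU i` by `hmul`, so `c' ∈ Pb i` by `h4`: `c' ∈ bb`.
`cc_surj`: let `y ∈ J`.  As above `y ∈ A+`, `y = τ^m y'`.  `F y ∈ A+` by `hU` (`←`); `F τ^(m+1) y' ∈ A-` by `hS` (`←`), so
`F y = τ⁻¹ (F τ^(m+1) y') ∈ A-`; `C1_adj`.
-/

noncomputable section

namespace CMT

variable {R : Type} [CommRing R] [IsDomain R] [IsIntegrallyClosed R] {K : Type} [Field K]
  [Algebra R K] [IsFractionRing R K]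

/-- (H2) + (H4), abstract -/
theorem cc_iff (τ : K) (hτ : τ ≠ 0) (m : ℕ) (F : K) (hF : F ≠ 0) {ι : Type} (Pb : ι → Ideal R)
    (BU BS : ι → Set K) (hmul : ∀ i x, x ∈ BU i → x * τ ∈ BU i)
    (h4 : ∀ i (c : R), algebraMap R K c ∈ BU i ↔ c ∈ Pb i)
    (h5 : ∀ i (c : R), c ∈ Pb i → algebraMap R K c ∈ BS i)
    (hU : ∀ x, (x ∈ Algebra.adjoin R {τ} ∧ ∀ i, x ∈ BU i) ↔
      ∃ y ∈ Algebra.adjoin R {τ}, x = F * y)
    (hS : ∀ x, (x ∈ Algebra.adjoin R {τ⁻¹} ∧ ∀ i, x ∈ BS i) ↔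
      ∃ y ∈ Algebra.adjoin R {τ⁻¹}, x = F * τ ^ (m + 1) * y) (c : R) :
    c ∈ ccI (⨅ i, Pb i) τ ↔
      ∃ y ∈ Submodule.span R (Set.range fun i : Fin (m + 1) => τ ^ (i : ℕ)),
        algebraMap R K c = F * y := by
  constructor
  · rintro ⟨h1, r, hr, hr'⟩
    obtain ⟨y, hy, hcy⟩ := (hU (algebraMap R K c)).1
      ⟨Subalgebra.algebraMap_mem _ _, fun i => (h4 i c).2 ((Submodule.mem_iInf _).1 h1 i)⟩
    obtain ⟨y', hy', hcy'⟩ := (hS (algebraMap R K r)).1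
      ⟨Subalgebra.algebraMap_mem _ _, fun i => h5 i r ((Submodule.mem_iInf _).1 hr i)⟩
    refine ⟨y, (mem_span_pow_iff τ hτ m y).1 ⟨hy, y', hy', ?_⟩, hcy⟩
    have e : F * y * τ = F * τ ^ (m + 1) * y' := by rw [← hcy, ← hr', hcy']
    have e2 : (F * τ) * y = (F * τ) * (τ ^ m * y') := by
      rw [pow_succ] at e
      linear_combination e
    exact mul_left_cancel₀ (mul_ne_zero hF hτ) e2
  · rintro ⟨y, hy, hcy⟩
    obtain ⟨hy1, y', hy', hyy⟩ := (mem_span_pow_iff τ hτ m y).2 hy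
    have hU' := (hU (algebraMap R K c)).2 ⟨y, hy1, hcy⟩
    have hc1 : ∀ i, c ∈ Pb i := fun i => (h4 i c).1 (hU'.2 i)
    have hS' := (hS (algebraMap R K c * τ)).2 ⟨y', hy', by rw [hcy, hyy, pow_succ]; ring⟩
    obtain ⟨r, hr⟩ := C1_adj τ (algebraMap R K c * τ)
      (mul_mem (Subalgebra.algebraMap_mem _ _) (Algebra.self_mem_adjoin_singleton R τ)) hS'.1
    refine ⟨(Submodule.mem_iInf _).2 hc1, r, (Submodule.mem_iInf _).2 fun i => (h4 i r).1 ?_, hr⟩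
    rw [hr]
    exact hmul i _ (hU'.2 i)

theorem cc_surj (τ : K) (hτ : τ ≠ 0) (m : ℕ) (F : K) {ι : Type}
    (BU BS : ι → Set K)
    (hU : ∀ x, (x ∈ Algebra.adjoin R {τ} ∧ ∀ i, x ∈ BU i) ↔
      ∃ y ∈ Algebra.adjoin R {τ}, x = F * y)
    (hS : ∀ x, (x ∈ Algebra.adjoin R {τ⁻¹} ∧ ∀ i, x ∈ BS i) ↔
      ∃ y ∈ Algebra.adjoin R {τ⁻¹}, x = F * τ ^ (m + 1) * y)
    (y : K) (hy : y ∈ Submodule.span R (Set.range fun i : Fin (m + 1) => τ ^ (i : ℕ))) :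
    ∃ c : R, algebraMap R K c = F * y := by
  obtain ⟨hy1, y', hy', hyy⟩ := (mem_span_pow_iff τ hτ m y).2 hy
  have h1 := ((hU (F * y)).2 ⟨y, hy1, rfl⟩).1
  have h2 := ((hS (F * τ ^ (m + 1) * y')).2 ⟨y', hy', rfl⟩).1
  refine C1_adj τ (F * y) h1 ?_
  have e : F * y = τ⁻¹ * (F * τ ^ (m + 1) * y') := by
    rw [hyy, pow_succ]
    field_simp
  rw [e]
  exact mul_mem (Algebra.self_mem_adjoin_singleton R τ⁻¹) h2

end CMT
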