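import Mathlib

/-!
# MP_7fe4b4_ag, job H-Count1 : `dim J / nn J = m + 1`, `J = ∑_{i ≤ m} R τ^i`

`J` is generated over `R` by `1, τ, …, τ^m` and `R = ℂ + nn`, so the classes of the `τ^i` span `J / nn J` over `ℂ`; they are linearly
independent: `∑ c_i τ^i ∈ nn • J` means `∑ c_i τ^i = ∑ x_i τ^i` with `x_i ∈ nn` (elements of `nn • span (range f)` are `∑ x_i f i`
with `x_i ∈ nn`: `Submodule.mem_ideal_smul_span_iff_exists_sum`; for the submodule `nn • ⊤` of the module `J` map it to `K` by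
`Submodule.map_smul''` and `J.subtype`), so `c = 0` by `hind`.
So the `ℂ`-linear map `(Fin (m+1) → ℂ) → J / nn J`, `c ↦ ∑ c_i τ^i`, is bijective: `LinearEquiv.ofBijective`, `finrank_fin_fun`.
-/

noncomputable section

namespace CMT

/-- Abstract form: `g` generates `J` over `R = ℂ + nn` and is independent modulo `nn • J`. -/
theorem count1_abs {R : Type} [CommRing R] [Algebra ℂ R] {M : Type} [AddCommGroup M] [Module R M]
    [Module ℂ M] [IsScalarTower ℂ R M] (nn : Ideal R)
    (hn : ∀ r : R, ∃ c : ℂ, r - algebraMap ℂ R c ∈ nn) (m : ℕ) (g : Fin (m + 1) → M)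
    (hg : Submodule.span R (Set.range g) = ⊤)
    (hind : ∀ c : Fin (m + 1) → ℂ, ∑ i, c i • g i ∈ (nn • (⊤ : Submodule R M)) → c = 0) :
    Module.finrank ℂ (M ⧸ (nn • (⊤ : Submodule R M))) = m + 1 := by
  obtain ⟨L, hL⟩ : ∃ L : (Fin (m + 1) → ℂ) →ₗ[ℂ] (M ⧸ (nn • (⊤ : Submodule R M))),
      ∀ c, L c = Submodule.Quotient.mk (∑ i, c i • g i) :=
    ⟨((nn • (⊤ : Submodule R M)).mkQ.restrictScalars ℂ) ∘ₗ Fintype.linearCombination ℂ g,
      fun c => rfl⟩
  have hinj : Function.Injective L := by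
    rw [← LinearMap.ker_eq_bot, LinearMap.ker_eq_bot']
    intro c hc
    rw [hL, Submodule.Quotient.mk_eq_zero] at hc
    exact hind c hc
  have hsurj : Function.Surjective L := by
    intro q
    obtain ⟨x, rfl⟩ := Submodule.Quotient.mk_surjective _ q
    have hx : x ∈ Submodule.span R (Set.range g) := by rw [hg]; trivial
    obtain ⟨r, hr⟩ := (Submodule.mem_span_range_iff_exists_fun R).1 hx
    choose c hc using fun i => hn (r i)
    refine ⟨c, ?_⟩
    rw [hL, Submodule.Quotient.eq, ← hr, ← Finset.sum_sub_distrib]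
    refine Submodule.sum_mem _ fun i _ => ?_
    have h1 : c i • g i - r i • g i = (-(r i - algebraMap ℂ R (c i))) • g i := by
      rw [neg_smul, sub_smul, algebraMap_smul, neg_sub]
    rw [h1]
    exact Submodule.smul_mem_smul (nn.neg_mem (hc i)) trivial
  rw [← (LinearEquiv.ofBijective L ⟨hinj, hsurj⟩).finrank_eq, Module.finrank_fin_fun]

theorem count_J {R : Type} [CommRing R] {K : Type} [Field K] [Algebra R K]
    [Algebra ℂ R] [Algebra ℂ K] [IsScalarTower ℂ R K] (τ : K) (nn : Ideal R)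
    (hn : ∀ r : R, ∃ c : ℂ, r - algebraMap ℂ R c ∈ nn) (m : ℕ)
    (hind : ∀ (c : Fin (m + 1) → ℂ) (x : Fin (m + 1) → R), (∀ i, x i ∈ nn) →
      ∑ i, algebraMap ℂ K (c i) * τ ^ (i : ℕ) = ∑ i, algebraMap R K (x i) * τ ^ (i : ℕ) →
        ∀ i, c i = 0) :
    Module.finrank ℂ ((Submodule.span R (Set.range fun i : Fin (m + 1) => τ ^ (i : ℕ)) :
        Submodule R K) ⧸ (nn • (⊤ : Submodule R
          (Submodule.span R (Set.range fun i : Fin (m + 1) => τ ^ (i : ℕ)) : Submodule R K)))) =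
      m + 1 := by
  refine count1_abs nn hn m (fun i => ⟨τ ^ (i : ℕ), Submodule.subset_span ⟨i, rfl⟩⟩) ?_ ?_
  · have h := Submodule.span_span_coe_preimage (R := R)
      (s := Set.range fun i : Fin (m + 1) => τ ^ (i : ℕ))
    rw [← h]
    congr 1
    ext x
    simp only [Set.mem_range, Set.mem_preimage]
    constructor
    · rintro ⟨i, hi⟩
      exact ⟨i, by rw [← hi]⟩
    · rintro ⟨i, hi⟩
      exact ⟨i, Subtype.ext hi⟩
  · intro c hc
    have h1 := Submodule.mem_map_of_mem (f := (Submodule.span R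
      (Set.range fun i : Fin (m + 1) => τ ^ (i : ℕ)) : Submodule R K).subtype) hc
    rw [Submodule.map_smul'', Submodule.map_top, Submodule.range_subtype,
      Submodule.mem_ideal_smul_span_iff_exists_sum] at h1
    obtain ⟨a, ha, hsum⟩ := h1
    funext i
    refine hind c (fun i => a i) ha ?_ i
    rw [Finsupp.sum_fintype _ _ (by intro i; exact zero_smul _ _)] at hsum
    simp only [map_sum, Submodule.subtype_apply] at hsum
    have h2 : ∀ i : Fin (m + 1), algebraMap R K (a i) * τ ^ (i : ℕ) = a i • τ ^ (i : ℕ) :=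
      fun i => (Algebra.smul_def _ _).symm
    have h3 : ∀ i : Fin (m + 1), algebraMap ℂ K (c i) * τ ^ (i : ℕ) = c i • τ ^ (i : ℕ) :=
      fun i => (Algebra.smul_def _ _).symm
    simp only [h2, h3]
    rw [hsum]
    rfl

end CMT
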