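import Pool.Agent.H43.CM.C.Tau
import Pool.Agent.H43.CM.H.Count1

/-!
# MP_7fe4b4_ag, job H-Count2 : `ccI bb τ ≃ J`

The map `J → ccI bb τ`, `y ↦ c` with `algebraMap c = F y` (`hJ` for existence, `hcc` (←) for membership, injectivity of
`algebraMap R K` for uniqueness) is `R`-linear and bijective (`F ≠ 0`; surjective by `hcc` (→)).  An `R`-linear isomorphism
`e : M ≃ₗ[R] M'` maps `nn • ⊤` onto `nn • ⊤` (`Submodule.map_smul''`, `Submodule.map_top`, `LinearEquiv.range`), so it induces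
`M ⧸ nn • ⊤ ≃ₗ[R] M' ⧸ nn • ⊤` (`Submodule.Quotient.equiv`), restrict scalars to `ℂ` (`LinearEquiv.restrictScalars ℂ`), `count_J`.
-/

noncomputable section

namespace CMT

theorem count_cc {R : Type} [CommRing R] {K : Type} [Field K] [Algebra R K] [IsDomain R]
    [IsFractionRing R K]
    [Algebra ℂ R] [Algebra ℂ K] [IsScalarTower ℂ R K] (τ : K) (bb : Ideal R) (nn : Ideal R)
    (hn : ∀ r : R, ∃ c : ℂ, r - algebraMap ℂ R c ∈ nn) (m : ℕ) (F : K) (hF : F ≠ 0)
    (hcc : ∀ c : R, c ∈ ccI bb τ ↔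
      ∃ y ∈ Submodule.span R (Set.range fun i : Fin (m + 1) => τ ^ (i : ℕ)),
        algebraMap R K c = F * y)
    (hJ : ∀ y ∈ Submodule.span R (Set.range fun i : Fin (m + 1) => τ ^ (i : ℕ)),
      ∃ c : R, algebraMap R K c = F * y)
    (hind : ∀ (c : Fin (m + 1) → ℂ) (x : Fin (m + 1) → R), (∀ i, x i ∈ nn) →
      ∑ i, algebraMap ℂ K (c i) * τ ^ (i : ℕ) = ∑ i, algebraMap R K (x i) * τ ^ (i : ℕ) →
        ∀ i, c i = 0) :
    Module.finrank ℂ (ccI bb τ ⧸ (nn • (⊤ : Submodule R (ccI bb τ)))) = m + 1 := by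
  have hinj : Function.Injective (algebraMap R K) := IsFractionRing.injective R K
  have hτ : ∀ i : Fin (m + 1), τ ^ (i : ℕ) ∈
      Submodule.span R (Set.range fun i : Fin (m + 1) => τ ^ (i : ℕ)) :=
    fun i => Submodule.subset_span ⟨i, rfl⟩
  choose d hd using fun i : Fin (m + 1) => hJ _ (hτ i)
  have hdm : ∀ i, d i ∈ ccI bb τ := fun i => (hcc (d i)).2 ⟨_, hτ i, hd i⟩
  have hsum : ∀ r : Fin (m + 1) → R, algebraMap R K (∑ i, r i * d i) =
      F * ∑ i, algebraMap R K (r i) * τ ^ (i : ℕ) := by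
    intro r
    rw [map_sum, Finset.mul_sum]
    refine Finset.sum_congr rfl fun i _ => ?_
    rw [map_mul, hd]
    ring
  have hrep : ∀ c ∈ ccI bb τ, ∃ r : Fin (m + 1) → R, ∑ i, r i * d i = c := by
    intro c hc
    obtain ⟨y, hy, hcy⟩ := (hcc c).1 hc
    obtain ⟨r, hr⟩ := (Submodule.mem_span_range_iff_exists_fun R).1 hy
    refine ⟨r, hinj ?_⟩
    rw [hsum, hcy, ← hr]
    congr 1
    exact Finset.sum_congr rfl fun i _ => (Algebra.smul_def _ _).symm
  have hcoe : ∀ r : Fin (m + 1) → R,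
      (∑ i, r i • (⟨d i, hdm i⟩ : ccI bb τ) : ccI bb τ).1 = ∑ i, r i * d i := by
    intro r
    simp
  refine count1_abs nn hn m (fun i => (⟨d i, hdm i⟩ : ccI bb τ)) ?_ ?_
  · rw [eq_top_iff]
    rintro ⟨c, hc⟩ -
    obtain ⟨r, hr⟩ := hrep c hc
    rw [Submodule.mem_span_range_iff_exists_fun]
    exact ⟨r, Subtype.ext ((hcoe r).trans hr)⟩
  · intro c hc
    have h0 : (⊤ : Submodule R (ccI bb τ)) =
        Submodule.span R (Set.range fun i => (⟨d i, hdm i⟩ : ccI bb τ)) := by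
      symm
      rw [eq_top_iff]
      rintro ⟨c, hc⟩ -
      obtain ⟨r, hr⟩ := hrep c hc
      rw [Submodule.mem_span_range_iff_exists_fun]
      exact ⟨r, Subtype.ext ((hcoe r).trans hr)⟩
    rw [h0, Submodule.mem_ideal_smul_span_iff_exists_sum] at hc
    obtain ⟨a, ha, hs⟩ := hc
    rw [Finsupp.sum_fintype _ _ (by intro i; exact zero_smul _ _)] at hs
    have h2 := congrArg (fun z : ccI bb τ => (z : R)) hs
    funext i
    refine hind c (fun i => a i) ha ?_ i
    have h3 : ∑ i, a i * d i = ∑ i, algebraMap ℂ R (c i) * d i := by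
      have e1 := hcoe a
      have e2 : (∑ i, c i • (⟨d i, hdm i⟩ : ccI bb τ) : ccI bb τ).1 =
          ∑ i, algebraMap ℂ R (c i) * d i := by
        simp [Algebra.smul_def]
      rw [← e1, ← e2]
      exact h2
    have h4 := congrArg (algebraMap R K) h3
    rw [hsum, hsum] at h4
    have h5 := mul_left_cancel₀ hF h4
    rw [h5]
    exact Finset.sum_congr rfl fun i _ => by rw [← IsScalarTower.algebraMap_apply]

end CMT
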