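import Pool.Agent.H43.CM.C.Ker2

/-!
# MP_7fe4b4_ag, job H-Count3 : `dim N/(nn,X)N = dim cc/nn cc` for `N = kerI bb τ ≃ cc[X]`

`kerI_equiv` (C/Ker2.lean): `(ccI bb τ).map C ≃ₗ[R[X]] kerI bb τ`.  An `R[X]`-linear isomorphism induces an isomorphism of
the quotients by `(nn.map C ⊔ span {X}) • ⊤` (as in H/Count2), so it is enough to prove (`count_poly`):
for every ideal `cc` of `R`: `finrank ℂ (cc.map C ⧸ (nn.map C ⊔ span {X}) • ⊤) = finrank ℂ (cc ⧸ nn • ⊤)`.
Proof: elements of `cc.map C` are the polynomials with all coefficients in `cc` (`Ideal.mem_map_C_iff`).  The map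
`h ↦ h.coeff 0`, `cc.map C → cc → cc ⧸ nn • ⊤`, is additive, `ℂ`-linear and surjective (`C c ↦ c`).  Its kernel is
`(nn.map C ⊔ span {X}) • ⊤`: `⊇`: the constant coefficient of `X h` is `0`, of `C x * h` it is `x h_0`; general elements of `nn.map C` are
polynomials with coefficients in `nn`.  `⊆`: `h = C h_0 + X h'`, `h' = h.divX` has coefficients in `cc`, so `X h' ∈ (..) • ⊤`; and
`h_0 ∈ nn • cc` gives `C h_0 ∈ (nn.map C) • cc.map C` (`Submodule.smul_induction_on`).
-/

open Polynomial

noncomputable section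

namespace CMT

theorem count_poly {R : Type} [CommRing R] [Algebra ℂ R] (cc nn : Ideal R) :
    Module.finrank ℂ ((cc.map (C : R →+* R[X])) ⧸ ((nn.map (C : R →+* R[X]) ⊔ Ideal.span {X}) •
      (⊤ : Submodule R[X] (cc.map (C : R →+* R[X]))))) =
    Module.finrank ℂ (cc ⧸ (nn • (⊤ : Submodule R cc))) := by
  set a : Ideal R[X] := nn.map (C : R →+* R[X]) ⊔ Ideal.span {X} with ha
  let φ : (cc.map (C : R →+* R[X])) →ₗ[ℂ] (cc ⧸ (nn • (⊤ : Submodule R cc))) :=
    { toFun := fun h => Submodule.Quotient.mk ⟨(h : R[X]).coeff 0, Ideal.mem_map_C_iff.1 h.2 0⟩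
      map_add' := by
        intro x y
        rw [← Submodule.Quotient.mk_add]
        congr 1
      map_smul' := by
        intro c x
        rw [RingHom.id_apply, ← Submodule.Quotient.mk_smul]
        congr 1 }
  have hsurj : Function.Surjective φ := by
    intro y
    obtain ⟨c, rfl⟩ := Submodule.Quotient.mk_surjective _ y
    refine ⟨⟨C (c : R), Ideal.mem_map_of_mem _ c.2⟩, ?_⟩
    show Submodule.Quotient.mk _ = _
    congr 1
    apply Subtype.ext
    simp
  have hCmem : ∀ z : cc, z ∈ nn • (⊤ : Submodule R cc) →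
      (⟨C (z : R), Ideal.mem_map_of_mem _ z.2⟩ : (cc.map (C : R →+* R[X]))) ∈
        a • (⊤ : Submodule R[X] (cc.map (C : R →+* R[X]))) := by
    intro z hz
    refine Submodule.smul_induction_on
      (p := fun z : cc => (⟨C (z : R), Ideal.mem_map_of_mem _ z.2⟩ : (cc.map (C : R →+* R[X]))) ∈
        a • (⊤ : Submodule R[X] (cc.map (C : R →+* R[X])))) hz ?_ ?_
    · intro r hr m _
      have h1 : (⟨C ((r • m : cc) : R), Ideal.mem_map_of_mem _ (r • m : cc).2⟩ :
          (cc.map (C : R →+* R[X]))) = (C r : R[X]) • ⟨C (m : R), Ideal.mem_map_of_mem _ m.2⟩ := by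
        apply Subtype.ext
        simp
      rw [h1]
      exact Submodule.smul_mem_smul (Ideal.mem_sup_left (Ideal.mem_map_of_mem _ hr))
        Submodule.mem_top
    · intro x y hx hy
      have h1 : (⟨C ((x + y : cc) : R), Ideal.mem_map_of_mem _ (x + y : cc).2⟩ :
          (cc.map (C : R →+* R[X]))) = ⟨C (x : R), Ideal.mem_map_of_mem _ x.2⟩ +
            ⟨C (y : R), Ideal.mem_map_of_mem _ y.2⟩ := by
        apply Subtype.ext
        simp
      rw [h1]
      exact add_mem hx hy
  have hker : LinearMap.ker φ =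
      (a • (⊤ : Submodule R[X] (cc.map (C : R →+* R[X])))).restrictScalars ℂ := by
    ext h
    rw [LinearMap.mem_ker, Submodule.restrictScalars_mem]
    constructor
    · intro hh
      have hh' : (⟨(h : R[X]).coeff 0, Ideal.mem_map_C_iff.1 h.2 0⟩ : cc) ∈
          nn • (⊤ : Submodule R cc) := (Submodule.Quotient.mk_eq_zero _).1 hh
      have hd : (h : R[X]).divX ∈ cc.map (C : R →+* R[X]) := by
        rw [Ideal.mem_map_C_iff]
        intro n
        rw [coeff_divX]
        exact Ideal.mem_map_C_iff.1 h.2 _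
      have hsum : h = (X : R[X]) • (⟨(h : R[X]).divX, hd⟩ : (cc.map (C : R →+* R[X]))) +
          ⟨C ((h : R[X]).coeff 0), Ideal.mem_map_of_mem _ (Ideal.mem_map_C_iff.1 h.2 0)⟩ := by
        apply Subtype.ext
        have := divX_mul_X_add (h : R[X])
        simp only [Submodule.coe_add, Submodule.coe_smul, smul_eq_mul]
        rw [mul_comm]
        exact this.symm
      rw [hsum]
      exact add_mem (Submodule.smul_mem_smul
        (Ideal.mem_sup_right (Ideal.subset_span (Set.mem_singleton _))) Submodule.mem_top)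
        (hCmem _ hh')
    · intro hh
      show Submodule.Quotient.mk _ = _
      rw [Submodule.Quotient.mk_eq_zero]
      refine Submodule.smul_induction_on
        (p := fun h : (cc.map (C : R →+* R[X])) =>
          (⟨(h : R[X]).coeff 0, Ideal.mem_map_C_iff.1 h.2 0⟩ : cc) ∈
          nn • (⊤ : Submodule R cc)) hh ?_ ?_
      · intro r hr m _
        have hr0 : r.coeff 0 ∈ nn := by
          obtain ⟨u, hu, v, hv, rfl⟩ := Submodule.mem_sup.1 hr
          rw [Ideal.mem_span_singleton'] at hv
          obtain ⟨b, rfl⟩ := hv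
          rw [coeff_add]
          have : (b * X).coeff 0 = 0 := by simp
          rw [this, add_zero]
          exact Ideal.mem_map_C_iff.1 hu 0
        have h1 : (⟨((r • m : (cc.map (C : R →+* R[X]))) : R[X]).coeff 0,
            Ideal.mem_map_C_iff.1 (r • m : (cc.map (C : R →+* R[X]))).2 0⟩ : cc) =
            (r.coeff 0) • ⟨(m : R[X]).coeff 0, Ideal.mem_map_C_iff.1 m.2 0⟩ := by
          apply Subtype.ext
          simp [mul_coeff_zero]
        rw [h1]
        exact Submodule.smul_mem_smul hr0 Submodule.mem_top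
      · intro x y hx hy
        have h1 : (⟨((x + y : (cc.map (C : R →+* R[X]))) : R[X]).coeff 0,
            Ideal.mem_map_C_iff.1 (x + y : (cc.map (C : R →+* R[X]))).2 0⟩ : cc) =
            ⟨(x : R[X]).coeff 0, Ideal.mem_map_C_iff.1 x.2 0⟩ +
            ⟨(y : R[X]).coeff 0, Ideal.mem_map_C_iff.1 y.2 0⟩ := by
          apply Subtype.ext
          simp
        rw [h1]
        exact add_mem hx hy
  have e1 := (LinearMap.quotKerEquivOfSurjective φ hsurj).finrank_eq
  have e2 := (Submodule.quotEquivOfEq _ _ hker).finrank_eq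
  have e3 := (Submodule.Quotient.restrictScalarsEquiv ℂ
    (a • (⊤ : Submodule R[X] (cc.map (C : R →+* R[X]))))).finrank_eq
  rw [← e1, e2, e3]

theorem count_N {R : Type} [CommRing R] [IsDomain R] [IsIntegrallyClosed R] {K : Type} [Field K]
    [Algebra R K] [IsFractionRing R K] [Algebra ℂ R] (τ : K) (bb : Ideal R) (hbb : bb.IsRadical)
    (nn : Ideal R) :
    Module.finrank ℂ (kerI bb τ ⧸ ((nn.map (C : R →+* R[X]) ⊔ Ideal.span {X}) •
      (⊤ : Submodule R[X] (kerI bb τ)))) =
    Module.finrank ℂ (ccI bb τ ⧸ (nn • (⊤ : Submodule R (ccI bb τ)))) := by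
  obtain ⟨e⟩ := kerI_equiv bb hbb τ
  rw [← count_poly (ccI bb τ) nn]
  set a : Ideal R[X] := nn.map (C : R →+* R[X]) ⊔ Ideal.span {X} with ha
  have hmap : (a • (⊤ : Submodule R[X] ((ccI bb τ).map (C : R →+* R[X])))).map
      (e : ((ccI bb τ).map (C : R →+* R[X])) →ₗ[R[X]] (kerI bb τ)) =
      a • (⊤ : Submodule R[X] (kerI bb τ)) := by
    rw [Submodule.map_smul'', Submodule.map_top, LinearEquiv.range]
  exact ((Submodule.Quotient.equiv _ _ e hmap).restrictScalars ℂ).finrank_eq.symm

end CMT
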