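import Pool.Agent.H43.CM.H.Psv

/-!
# MP_7fe4b4_ag, job H-Fin-a : the isomorphism `CR (SS 1 v) ≃ R[X]`

The kernel of `psv` is `VI (SS 1 v)` (`psv_coeff` with `v' = v`, `Pb v q hq v = ⊥`), it is surjective (`psv_surjective`), and
`orig (SS 1 v)` corresponds to `(orig T, X)` (`psv_orig`, `VI_SS_le_orig`).
-/

open MvPolynomial

noncomputable section

namespace CMT

variable {n : ℕ}

private theorem crp_ble_refl (v : Equiv.Perm (Fin n)) : ble v v := fun _ _ => le_rfl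

private theorem crp_ker (v : Equiv.Perm (Fin n)) (q : ℕ) (hq : q + 1 < n) (hv : dsc v q hq) :
    VI (SS 1 v) = RingHom.ker (psv v q hq) := by
  ext f
  rw [psv_coeff hv hv (crp_ble_refl v), RingHom.mem_ker, Polynomial.ext_iff]
  apply forall_congr'
  intro i
  have h : Pb v q hq v = ⊥ := by
    unfold Pb
    exact Ideal.map_quotient_self _
  rw [h, Ideal.mem_bot, Polynomial.coeff_zero]

private theorem crp_orig (v : Equiv.Perm (Fin n)) (f : MvPolynomial (Low n) ℂ) :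
    Ideal.Quotient.mk (VI (SS 1 v)) f ∈ orig (SS 1 v) ↔
      f ∈ Ideal.span (Set.range (X : Low n → MvPolynomial (Low n) ℂ)) := by
  have h1 : orig (SS 1 v) = (Ideal.span (Set.range (X : Low n → MvPolynomial (Low n) ℂ))).map
      (Ideal.Quotient.mk (VI (SS 1 v))) := by
    unfold orig
    rw [Ideal.map_span, ← Set.range_comp]
    rfl
  rw [h1]
  constructor
  · intro h
    have h2 : f ∈ Ideal.comap (Ideal.Quotient.mk (VI (SS 1 v)))
      (Ideal.map (Ideal.Quotient.mk (VI (SS 1 v)))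
        (Ideal.span (Set.range (X : Low n → MvPolynomial (Low n) ℂ)))) := h
    rw [Ideal.comap_map_of_surjective' _ Ideal.Quotient.mk_surjective, Ideal.mk_ker] at h2
    exact (sup_le le_rfl (VI_SS_le_orig (SS_nonempty_of_ble (ble_one v)))) h2
  · intro h
    exact Ideal.mem_map_of_mem _ h

/-- `CR (SS 1 v) ≃ R[X]` -/
theorem exists_crPoly (v : Equiv.Perm (Fin n)) (q : ℕ) (hq : q + 1 < n) (hv : dsc v q hq) :
    ∃ e : CR (SS 1 v) ≃ₐ[ℂ] Polynomial (CR (Tb 1 v q hq)),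
      (∀ f, e (Ideal.Quotient.mk _ f) = psv v q hq f) ∧
      ∀ a, a ∈ orig (SS 1 v) ↔
        e a ∈ (orig (Tb 1 v q hq)).map Polynomial.C ⊔ Ideal.span {Polynomial.X} := by
  obtain ⟨e, he⟩ : ∃ e : CR (SS 1 v) ≃ₐ[ℂ] Polynomial (CR (Tb 1 v q hq)),
      ∀ f, e (Ideal.Quotient.mk _ f) = psv v q hq f :=
    ⟨(Ideal.quotientEquivAlgOfEq ℂ (crp_ker v q hq hv)).trans
      (Ideal.quotientKerAlgEquivOfSurjective (psv_surjective v q hq)), fun f => rfl⟩
  refine ⟨e, he, fun a => ?_⟩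
  obtain ⟨f, rfl⟩ := Ideal.Quotient.mk_surjective a
  rw [he, crp_orig, psv_orig v q hq hv]

end CMT
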