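import Pool.Agent.H43.CM.A.Iface
import Pool.Agent.H43.CM.Ch.Iface

/-!
# MP_7fe4b4_ag : definitions of PART H

`v` has a descent at `q`, `u = v * sr q hq`, `T = Tb 1 v q hq`, `R = CR T`, `K = FractionRing R`, `τ = tq v q hq`.
-/

open MvPolynomial

noncomputable section

namespace CMT

variable {n : ℕ}

/-- the point with coordinates `X j mod I(T)` and `t` -/
def pt {κ : Type} (T : Set (κ → ℂ)) {S : Type*} [CommRing S] [Algebra (CR T) S] (t : S) :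
    Option κ → S
  | none => t
  | some j => algebraMap (CR T) S (Ideal.Quotient.mk (VI T) (X j))

/-- the exponents `e_k = h(k) - h(k-1)` -/
def ex (h : Fin n → ℤ) (k : Fin n) : ℤ :=
  if hk : k.val = 0 then 0 else h k - h ⟨k.val - 1, by omega⟩

/-- `P̄_{v'}` -/
def Pb (v : Equiv.Perm (Fin n)) (q : ℕ) (hq : q + 1 < n) (v' : Equiv.Perm (Fin n)) :
    Ideal (CR (Tb 1 v q hq)) :=
  (VI (Tb 1 v' q hq)).map (Ideal.Quotient.mk (VI (Tb 1 v q hq)))

/-- `A → R[X]`, with kernel `I_{e,v}` -/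
def psv (v : Equiv.Perm (Fin n)) (q : ℕ) (hq : q + 1 < n) :
    MvPolynomial (Low n) ℂ →ₐ[ℂ] Polynomial (CR (Tb 1 v q hq)) :=
  aeval (gam (pt (Tb 1 v q hq) (Polynomial.X : Polynomial (CR (Tb 1 v q hq)))))

variable (v : Equiv.Perm (Fin n)) (q : ℕ) (hq : q + 1 < n) [IsDomain (CR (Tb 1 v q hq))]

/-- `τ` -/
def tq : FractionRing (CR (Tb 1 v q hq)) := tau (Tb 1 v q hq) (aP 1 v q hq) (bP 1 v q hq)

/-- `A → K` with kernel `I_{e,u}` and image `R[τ]` -/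
def psu : MvPolynomial (Low n) ℂ →ₐ[ℂ] FractionRing (CR (Tb 1 v q hq)) :=
  aeval (gam (pt (Tb 1 v q hq) (tq v q hq)))

/-- `A → K` with kernel `I_{s,u}` and image `R[τ⁻¹]` -/
def pss : MvPolynomial (Low n) ℂ →ₐ[ℂ] FractionRing (CR (Tb 1 v q hq)) :=
  aeval (gam' (pt (Tb 1 v q hq) (tq v q hq)⁻¹))

/-- the image in `K` of the ideal of `X_{u'}` in the chart at `e` -/
def BU (u' : Equiv.Perm (Fin n)) : Set (FractionRing (CR (Tb 1 v q hq))) :=
  {y | ∃ f ∈ VI (SS 1 u'), psu v q hq f = y}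

/-- the image in `K` of the ideal of `X_{u'}` in the chart at `s` -/
def BS (u' : Equiv.Perm (Fin n)) : Set (FractionRing (CR (Tb 1 v q hq))) :=
  {y | ∃ f ∈ VI (SS (sr q hq) u'), pss v q hq f = y}

/-- `F = ∏_k Δ_{u,k}^{e_k}` in `K` -/
def FF (u : Equiv.Perm (Fin n)) (h : Fin n → ℤ) : FractionRing (CR (Tb 1 v q hq)) :=
  ∏ k : Fin n, psu v q hq (pmnr 1 u k.val k.isLt.le) ^ ex h k

/-- the same in the chart at `s` -/
def FS (u : Equiv.Perm (Fin n)) (h : Fin n → ℤ) : FractionRing (CR (Tb 1 v q hq)) :=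
  ∏ k : Fin n, pss v q hq (pmnr (sr q hq) u k.val k.isLt.le) ^ ex h k

end CMT
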