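import Pool.Agent.H43.CM.H.Defs

/-!
# MP_7fe4b4_ag, job H-Esum : the exponents

* `sum_ex`: telescoping sum of `h k - h (k-1)` for `a < k ≤ b` (induction on `b.val - a.val`, or convert to a sum over
  `Finset.Ioc a.val b.val` of naturals).
* `esum_cov`: let `cov u' u`, `RankFun u h`.  By `cov_iff`: `u' = u * swap a b`, `a < b`, `u b < u a`, no intermediate, so `h b = h a + 1`.
  The set of `k : Fin n` with `¬ ∀ i, rk u' i k = rk u i k` is `{k : a < k ≤ b}` by `rk_swap_of_mem` and `rk_swap_of_not_mem`.
  So the sum is `h b - h a = 1` (`sum_ex`).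
-/

open MvPolynomial

noncomputable section

namespace CMT

variable {n : ℕ}

theorem Esum_aux (h : Fin n → ℤ) (a : Fin n) (m : ℕ) (hm : a.val + m < n) :
    ∑ k ∈ Finset.univ.filter (fun k : Fin n => a.val < k.val ∧ k.val ≤ a.val + m), ex h k =
      h ⟨a.val + m, hm⟩ - h a := by
  induction m with
  | zero =>
    have h1 : Finset.univ.filter (fun k : Fin n => a.val < k.val ∧ k.val ≤ a.val + 0) = ∅ := by
      ext k
      simp only [Finset.mem_filter, Finset.mem_univ, true_and, Finset.notMem_empty, iff_false]
      omega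
    rw [h1, Finset.sum_empty]
    simp
  | succ m ih =>
    have hm' : a.val + m < n := by omega
    have h1 : Finset.univ.filter (fun k : Fin n => a.val < k.val ∧ k.val ≤ a.val + (m + 1)) =
        insert (⟨a.val + (m + 1), hm⟩ : Fin n)
          (Finset.univ.filter (fun k : Fin n => a.val < k.val ∧ k.val ≤ a.val + m)) := by
      ext k
      simp only [Finset.mem_filter, Finset.mem_univ, true_and, Finset.mem_insert, Fin.ext_iff]
      omega
    rw [h1, Finset.sum_insert, ih hm']
    · unfold ex
      rw [dif_neg (by simp only; omega)]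
      have h2 : (⟨a.val + (m + 1) - 1, by omega⟩ : Fin n) = ⟨a.val + m, hm'⟩ := by
        apply Fin.ext
        simp only
        omega
      rw [h2]
      ring
    · simp only [Finset.mem_filter, Finset.mem_univ, true_and]
      omega

theorem sum_ex (h : Fin n → ℤ) {a b : Fin n} (hab : a ≤ b) :
    ∑ k ∈ Finset.univ.filter (fun k : Fin n => a.val < k.val ∧ k.val ≤ b.val), ex h k =
      h b - h a := by
  have h0 : a.val ≤ b.val := hab
  have h1 := Esum_aux h a (b.val - a.val) (by have := b.isLt; omega)
  have h2 : a.val + (b.val - a.val) = b.val := by omega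
  simp only [h2] at h1
  exact h1

theorem esum_cov {u u' : Equiv.Perm (Fin n)} {h : Fin n → ℤ} (hu : RankFun u h) (hc : cov u' u) :
    ∑ k : Fin n, (@ite ℤ (¬ ∀ i, rk u' i k.val = rk u i k.val) (Classical.propDecidable _)
      (ex h k) 0) = 1 := by
  obtain ⟨a, b, hab, rfl, hba, hc⟩ := cov_iff.1 hc
  have h1 := hu a b hab hba hc
  have h2 := sum_ex h hab.le
  rw [h1, Finset.sum_filter] at h2
  refine Eq.trans (Finset.sum_congr rfl fun k _ => ?_) (h2.trans (by ring))
  by_cases hk : a.val < k.val ∧ k.val ≤ b.val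
  · rw [if_pos hk, if_pos]
    intro hcon
    have h3 := rk_swap_of_mem hab hba k.val hk.1 hk.2
    rw [hcon] at h3
    exact lt_irrefl _ h3
  · rw [if_neg hk, if_neg]
    intro hcon
    exact hcon fun i => rk_swap_of_not_mem hab k.val hk i

end CMT
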