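import Pool.Agent.H43.CM.H.Psu
import Pool.Agent.H43.CM.H.Esum
import Pool.Agent.H43.CM.E.Iface

/-!
# MP_7fe4b4_ag, job H-DivU : the boundary ideal of `X_u` is principal in the charts at `e` and `s` (H3)

`divX`: for every `x, u` with `SS x u` nonempty and `RankFun u h`: for `g ∈ CR (SS x u)`:
`(∀ u' with cov u' u, g ∈ Pid x u u') ↔ ∃ r, (∏_k Δ_k^{(-e_k).toNat}) * g = (∏_k Δ_k^{(e_k).toNat}) * r`, `Δ_k = mk (pmnr x u k)`, `e_k = ex h k`.
Proof: `div_lemma` for `R = CR (SS x u)` (domain, integrally closed by `good_all`, Noetherian), `κ = Fin n`, index type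
`ι = {u' // cov u' u ∧ (SS x u').Nonempty}`, `Q u' = Pid x u u'`; `hΔ`: `pmnr_ne_zero`; `hp`: `Pid_isPrime`; `hh`: `Pid_height`; `hQ`:
`exists_cov_of_pmnr_mem`; `hord`: `pmnr_order_one` (with `pmnr_mem_Pid`); `he`: `pmnr_mem_Pid` turns the condition `Δ_k ∈ Q` into
`¬ ∀ i, rk u' i k = rk u i k`; `esum_cov`.  For `u'` with `SS x u'` empty, `VI (SS x u') = ⊤`, so `Pid x u u' = ⊤` and the condition is void.

`divU` (`u = v * sr q hq`, `x = 1`): `psu` induces an isomorphism of `CR (SS 1 u)` with `R[τ]` (`mem_VI_u`, `range_psu`).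
`←`: `x0 = F y`, `y = psu r0` (`range_psu`).  By `divX` (direction `←` needs an element `g` of `CR`): `divX` for `g`: first we need that `F y` is in `R[τ]`.
  Apply `div_lemma`... simplest: (i) `1`-case: the equation `f- * g = f+ * r` has a solution `g` for every `r`: this follows from
  `IsNoetherian normal`: not directly from `divX`.  So we also state `divX_surj`: `∀ r, ∃ g, f- * g = f+ * r` (see `div_surj` below).
  In `K`: `F = psu f+ / psu f-`.  So `x0 = F y` iff `psu f- * x0 = psu f+ * y`.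
`→`: `x0 = psu g`, `g ∈ VI (SS 1 u')` for all `u'` (the element `g` can be chosen once: if `x0 = psu g = psu g'` then `g - g' ∈ VI (SS 1 u) ≤ VI (SS 1 u')`).
  So `mk g ∈ Pid 1 u u'` for all `u'` and `divX` gives `r`.
`divS`: the same with `x = sr q hq`, `pss`, `mem_VI_s`, `range_pss`, `SS s u` nonempty by `hs`.
`FF_ne_zero`: each `psu (pmnr 1 u k) ≠ 0` by `mem_VI_u` and `pmnr_ne_zero`.

`div_surj` (needed in addition): under the hypotheses of `div_lemma`: `∀ r, ∃ g, f- * g = f+ * r`.  It is proved like `div_lemma`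
(at every height one prime the order of `f+` is at least the order of `f-`: it is `1` more at the `Q i`, and both are `0` elsewhere);
it is `div_surj` in E/DivS.lean.
-/

open MvPolynomial

noncomputable section

namespace CMT

variable {n : ℕ}

theorem DivU_mem_iff {x u : Equiv.Perm (Fin n)} (g : CR (SS x u)) :
    (∀ u', cov u' u → g ∈ Pid x u u') ↔
      ∀ i : {u' : Equiv.Perm (Fin n) // cov u' u ∧ (SS x u').Nonempty}, g ∈ Pid x u i.1 := by
  constructor
  · intro h i
    exact h i.1 i.2.1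
  · intro h u' hc
    by_cases hn : (SS x u').Nonempty
    · exact h ⟨u', hc, hn⟩
    · have h0 : VI (SS x u') = ⊤ := by
        rw [Set.not_nonempty_iff_eq_empty.1 hn]
        rw [Ideal.eq_top_iff_one]
        intro z hz
        exact absurd hz (Set.notMem_empty z)
      rw [Pid, h0, Ideal.map_top]
      exact Submodule.mem_top

theorem DivU_sum {x u u' : Equiv.Perm (Fin n)} {h : Fin n → ℤ} (hu : RankFun u h)
    (hc : cov u' u) (hn : (SS x u').Nonempty) :
    ∑ k : Fin n, (@ite ℤ (Ideal.Quotient.mk (VI (SS x u)) (pmnr x u k.val k.isLt.le) ∈ Pid x u u')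
      (Classical.propDecidable _) (ex h k) 0) = 1 := by
  refine (Finset.sum_congr rfl fun k _ => ?_).trans (esum_cov hu hc)
  have h1 := pmnr_mem_Pid (x := x) hc.1 hn k.val k.isLt.le
  by_cases h2 : Ideal.Quotient.mk (VI (SS x u)) (pmnr x u k.val k.isLt.le) ∈ Pid x u u'
  · rw [if_pos h2, if_pos (h1.1 h2)]
  · rw [if_neg h2, if_neg (fun h3 => h2 (h1.2 h3))]

theorem divX {x u : Equiv.Perm (Fin n)} (hne : (SS x u).Nonempty) {h : Fin n → ℤ}
    (hu : RankFun u h) (g : CR (SS x u)) :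
    (∀ u', cov u' u → g ∈ Pid x u u') ↔
      ∃ r, (∏ k : Fin n, Ideal.Quotient.mk (VI (SS x u)) (pmnr x u k.val k.isLt.le) ^
          (-ex h k).toNat) * g =
        (∏ k : Fin n, Ideal.Quotient.mk (VI (SS x u)) (pmnr x u k.val k.isLt.le) ^
          (ex h k).toNat) * r := by
  have hG := good_all x u hne
  haveI := hG.1
  haveI := hG.2.1
  rw [DivU_mem_iff]
  exact div_lemma (R := CR (SS x u))
    (fun k : Fin n => Ideal.Quotient.mk (VI (SS x u)) (pmnr x u k.val k.isLt.le))
    (fun k => pmnr_ne_zero hne k.val k.isLt.le)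
    (fun i : {u' : Equiv.Perm (Fin n) // cov u' u ∧ (SS x u').Nonempty} => Pid x u i.1)
    (fun i => Pid_isPrime i.2.1.1 i.2.2)
    (fun i => Pid_height i.2.1 i.2.2)
    (fun P hP hP1 k hk => by
      haveI := hP
      obtain ⟨w, hc, hn, hw⟩ := exists_cov_of_pmnr_mem hne P hP1 k.val k.isLt.le hk
      exact ⟨⟨w, hc, hn⟩, hw⟩)
    (fun i k hk g' hg' => pmnr_order_one i.2.1 i.2.2 k.val k.isLt.le
      ((pmnr_mem_Pid i.2.1.1 i.2.2 k.val k.isLt.le).1 hk) g' hg')
    (ex h) (fun i => DivU_sum hu i.2.1 i.2.2) g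

theorem divX_surj {x u : Equiv.Perm (Fin n)} (hne : (SS x u).Nonempty) {h : Fin n → ℤ}
    (hu : RankFun u h) (r : CR (SS x u)) :
    ∃ g, (∏ k : Fin n, Ideal.Quotient.mk (VI (SS x u)) (pmnr x u k.val k.isLt.le) ^
          (-ex h k).toNat) * g =
        (∏ k : Fin n, Ideal.Quotient.mk (VI (SS x u)) (pmnr x u k.val k.isLt.le) ^
          (ex h k).toNat) * r := by
  have hG := good_all x u hne
  haveI := hG.1
  haveI := hG.2.1
  exact div_surj (R := CR (SS x u))
    (fun k : Fin n => Ideal.Quotient.mk (VI (SS x u)) (pmnr x u k.val k.isLt.le))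
    (fun k => pmnr_ne_zero hne k.val k.isLt.le)
    (fun i : {u' : Equiv.Perm (Fin n) // cov u' u ∧ (SS x u').Nonempty} => Pid x u i.1)
    (fun i => Pid_isPrime i.2.1.1 i.2.2)
    (fun i => Pid_height i.2.1 i.2.2)
    (fun P hP hP1 k hk => by
      haveI := hP
      obtain ⟨w, hc, hn, hw⟩ := exists_cov_of_pmnr_mem hne P hP1 k.val k.isLt.le hk
      exact ⟨⟨w, hc, hn⟩, hw⟩)
    (fun i k hk g' hg' => pmnr_order_one i.2.1 i.2.2 k.val k.isLt.le
      ((pmnr_mem_Pid i.2.1.1 i.2.2 k.val k.isLt.le).1 hk) g' hg')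
    (ex h) (fun i => DivU_sum hu i.2.1 i.2.2) r

end CMT
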