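import Pool.Agent.H43.CM.H.DivU

/-!
# MP_7fe4b4_ag, job H-DivU2 : `divU`, `divS`, `FF_ne_zero` from `divX`, `divX_surj` (see the header of H/DivU.lean)
-/

open MvPolynomial

noncomputable section

namespace CMT

variable {n : ℕ}

theorem DivU2_ne {x u : Equiv.Perm (Fin n)} (hne : (SS x u).Nonempty) {K : Type*} [Field K]
    [Algebra ℂ K] (ψ : MvPolynomial (Low n) ℂ →ₐ[ℂ] K)
    (hψ : ∀ f, f ∈ VI (SS x u) ↔ ψ f = 0) (k : ℕ) (hk : k ≤ n) : ψ (pmnr x u k hk) ≠ 0 := by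
  intro h
  apply pmnr_ne_zero hne k hk
  rw [Ideal.Quotient.eq_zero_iff_mem]
  exact (hψ _).mpr h

/-- quotient form of the product of integral powers -/
theorem DivU2_quot {ι : Type*} [Fintype ι] {K : Type*} [Field K] (a : ι → K) (ha : ∀ i, a i ≠ 0)
    (e : ι → ℤ) : (∏ i, a i ^ (-e i).toNat) * ∏ i, a i ^ e i = ∏ i, a i ^ (e i).toNat := by
  rw [← Finset.prod_mul_distrib]
  apply Finset.prod_congr rfl
  intro i _
  rw [← zpow_natCast, ← zpow_natCast, ← zpow_add₀ (ha i)]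
  congr 1
  omega

/-- abstract form of `divU` and `divS` -/
theorem DivU2_abs {x u : Equiv.Perm (Fin n)} (hne : (SS x u).Nonempty) {h : Fin n → ℤ}
    (hu : RankFun u h) {K : Type*} [Field K] [Algebra ℂ K]
    (ψ : MvPolynomial (Low n) ℂ →ₐ[ℂ] K) (hψ : ∀ f, f ∈ VI (SS x u) ↔ ψ f = 0) (y : K) :
    ((∃ f, ψ f = y) ∧ ∀ i : {u' : Equiv.Perm (Fin n) // cov u' u}, ∃ f ∈ VI (SS x i.1), ψ f = y) ↔
      ∃ f, y = (∏ k : Fin n, ψ (pmnr x u k.val k.isLt.le) ^ ex h k) * ψ f := by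
  set P : Fin n → MvPolynomial (Low n) ℂ := fun k => pmnr x u k.val k.isLt.le with hP
  have hPne : ∀ k, ψ (P k) ≠ 0 := fun k => DivU2_ne hne ψ hψ k.val k.isLt.le
  have hq := DivU2_quot (fun k => ψ (P k)) hPne (ex h)
  have hm0 : (∏ k : Fin n, ψ (P k) ^ (-ex h k).toNat) ≠ 0 :=
    Finset.prod_ne_zero_iff.mpr fun k _ => pow_ne_zero _ (hPne k)
  -- from an equation in the quotient ring to an equation in `K`
  have key : ∀ G R0 : MvPolynomial (Low n) ℂ,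
      ((∏ k : Fin n, Ideal.Quotient.mk (VI (SS x u)) (P k) ^ (-ex h k).toNat) *
          Ideal.Quotient.mk (VI (SS x u)) G =
        (∏ k : Fin n, Ideal.Quotient.mk (VI (SS x u)) (P k) ^ (ex h k).toNat) *
          Ideal.Quotient.mk (VI (SS x u)) R0) →
      ψ G = (∏ k : Fin n, ψ (P k) ^ ex h k) * ψ R0 := by
    intro G R0 hGR
    have h1 : Ideal.Quotient.mk (VI (SS x u)) ((∏ k : Fin n, P k ^ (-ex h k).toNat) * G) =
        Ideal.Quotient.mk (VI (SS x u)) ((∏ k : Fin n, P k ^ (ex h k).toNat) * R0) := by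
      simpa only [map_mul, map_prod, map_pow] using hGR
    rw [Ideal.Quotient.eq, hψ, map_sub, sub_eq_zero, map_mul, map_mul, map_prod, map_prod] at h1
    simp only [map_pow] at h1
    apply mul_left_cancel₀ hm0
    rw [h1, ← mul_assoc, hq]
  constructor
  · rintro ⟨⟨g, hg⟩, hall⟩
    have hmem : ∀ u', cov u' u → Ideal.Quotient.mk (VI (SS x u)) g ∈ Pid x u u' := by
      intro u' hc
      obtain ⟨f, hf, hfy⟩ := hall ⟨u', hc⟩
      apply Ideal.mem_map_of_mem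
      have h1 : g - f ∈ VI (SS x u) := by
        rw [hψ, map_sub, hg, hfy, sub_self]
      have h2 := VI_le_of_ble (x := x) hc.1 h1
      have h3 := (VI (SS x u')).add_mem h2 hf
      simpa using h3
    obtain ⟨r, hr⟩ := (divX hne hu _).mp hmem
    obtain ⟨R0, rfl⟩ := Ideal.Quotient.mk_surjective r
    exact ⟨R0, by rw [← hg]; exact key g R0 hr⟩
  · rintro ⟨f, rfl⟩
    obtain ⟨g, hg⟩ := divX_surj hne hu (Ideal.Quotient.mk (VI (SS x u)) f)
    obtain ⟨G, rfl⟩ := Ideal.Quotient.mk_surjective g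
    have h1 := key G f hg
    refine ⟨⟨G, h1⟩, ?_⟩
    rintro ⟨u', hc⟩
    have h2 := (divX hne hu (Ideal.Quotient.mk (VI (SS x u)) G)).mpr ⟨_, hg⟩ u' hc
    rw [mk_mem_Pid hc.1] at h2
    exact ⟨G, h2, h1⟩

variable (v : Equiv.Perm (Fin n)) (q : ℕ) (hq : q + 1 < n)
  [IsDomain (CR (Tb 1 v q hq))]

theorem FF_ne_zero (hv : dsc v q hq) (h : Fin n → ℤ) :
    FF v q hq (v * sr q hq) h ≠ 0 := by
  unfold FF
  refine Finset.prod_ne_zero_iff.mpr fun k _ => zpow_ne_zero _ ?_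
  exact DivU2_ne (SS_nonempty_of_ble (ble_one _)) (psu v q hq)
    (fun f => mem_VI_u v q hq hv f) k.val k.isLt.le

/-- (H3) in the chart at `e` -/
theorem divU (hv : dsc v q hq) (h : Fin n → ℤ) (hh : RankFun (v * sr q hq) h)
    (x : FractionRing (CR (Tb 1 v q hq))) :
    (x ∈ Algebra.adjoin (CR (Tb 1 v q hq)) {tq v q hq} ∧
      ∀ i : {u' : Equiv.Perm (Fin n) // cov u' (v * sr q hq)}, x ∈ BU v q hq i.1) ↔
      ∃ y ∈ Algebra.adjoin (CR (Tb 1 v q hq)) {tq v q hq}, x = FF v q hq (v * sr q hq) h * y := by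
  have h1 := DivU2_abs (SS_nonempty_of_ble (ble_one _)) hh (psu v q hq)
    (fun f => mem_VI_u v q hq hv f) x
  rw [← range_psu]
  refine h1.trans ?_
  constructor
  · rintro ⟨f, hf⟩
    exact ⟨psu v q hq f, (range_psu v q hq _).mp ⟨f, rfl⟩, hf⟩
  · rintro ⟨y, hy, hxy⟩
    obtain ⟨f, rfl⟩ := (range_psu v q hq y).mpr hy
    exact ⟨f, hxy⟩

/-- (H3) in the chart at `s` -/
theorem divS (hv : dsc v q hq) (hs : ble (sr q hq) (v * sr q hq)) (h : Fin n → ℤ)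
    (hh : RankFun (v * sr q hq) h) (x : FractionRing (CR (Tb 1 v q hq))) :
    (x ∈ Algebra.adjoin (CR (Tb 1 v q hq)) {(tq v q hq)⁻¹} ∧
      ∀ i : {u' : Equiv.Perm (Fin n) // cov u' (v * sr q hq)}, x ∈ BS v q hq i.1) ↔
      ∃ y ∈ Algebra.adjoin (CR (Tb 1 v q hq)) {(tq v q hq)⁻¹},
        x = FS v q hq (v * sr q hq) h * y := by
  have h1 := DivU2_abs (SS_nonempty_of_ble hs) hh (pss v q hq)
    (fun f => mem_VI_s v q hq hv hs f) x
  rw [← range_pss]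
  refine h1.trans ?_
  constructor
  · rintro ⟨f, hf⟩
    exact ⟨pss v q hq f, (range_pss v q hq _).mp ⟨f, rfl⟩, hf⟩
  · rintro ⟨y, hy, hxy⟩
    obtain ⟨f, rfl⟩ := (range_pss v q hq y).mpr hy
    exact ⟨f, hxy⟩

end CMT
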