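import Pool.Agent.H43.CM.H.Indep

/-!
# MP_7fe4b4_ag, job H-Indep2 : (1), (2), (3) of the header of H/Indep.lean
-/

open MvPolynomial

noncomputable section

namespace CMT

variable {n : ℕ} (v : Equiv.Perm (Fin n)) (q : ℕ) (hq : q + 1 < n)
  [IsDomain (CR (Tb 1 v q hq))]

omit [IsDomain (CR (Tb 1 v q hq))] in
theorem Indep2_a_ne {κ : Type} (T : Set (κ → ℂ)) [IsDomain (CR T)] (a : MvPolynomial κ ℂ)
    (ha : a ∉ VI T) :
    algebraMap (CR T) (FractionRing (CR T)) (Ideal.Quotient.mk (VI T) a) ≠ 0 := by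
  intro h0
  apply ha
  rw [← Ideal.Quotient.eq_zero_iff_mem]
  exact (IsFractionRing.injective (CR T) (FractionRing (CR T))) (by rw [h0, map_zero])

omit [IsDomain (CR (Tb 1 v q hq))] in
theorem Indep2_hom {κ : Type} (T : Set (κ → ℂ)) [IsDomain (CR T)] (a b : MvPolynomial κ ℂ)
    (ha : a ∉ VI T) (m : ℕ) (W : Fin (m + 1) → MvPolynomial κ ℂ) :
    (∑ i, W i * a ^ (m - (i : ℕ)) * b ^ (i : ℕ)) ∈ VI T ↔
      ∑ i, algebraMap (CR T) (FractionRing (CR T)) (Ideal.Quotient.mk (VI T) (W i)) *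
        tau T a b ^ (i : ℕ) = 0 := by
  have ha' := Indep2_a_ne T a ha
  have h : algebraMap (CR T) (FractionRing (CR T)) (Ideal.Quotient.mk (VI T) a) * tau T a b =
      algebraMap (CR T) (FractionRing (CR T)) (Ideal.Quotient.mk (VI T) b) := by
    unfold tau
    exact mul_div_cancel₀ _ ha'
  have key : (algebraMap (CR T) (FractionRing (CR T)) (Ideal.Quotient.mk (VI T) a)) ^ m *
      ∑ i, algebraMap (CR T) (FractionRing (CR T)) (Ideal.Quotient.mk (VI T) (W i)) *
        tau T a b ^ (i : ℕ) = algebraMap (CR T) (FractionRing (CR T))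
        (Ideal.Quotient.mk (VI T) (∑ i, W i * a ^ (m - (i : ℕ)) * b ^ (i : ℕ))) := by
    rw [map_sum, map_sum, Finset.mul_sum]
    refine Finset.sum_congr rfl fun i _ => ?_
    have hi : (i : ℕ) ≤ m := by
      have := i.2
      omega
    rw [map_mul, map_mul, map_pow, map_pow, map_mul, map_mul, map_pow, map_pow, ← h, mul_pow,
      ← pow_sub_mul_pow (algebraMap (CR T) (FractionRing (CR T)) (Ideal.Quotient.mk (VI T) a)) hi]
    ring
  rw [← Ideal.Quotient.eq_zero_iff_mem]
  constructor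
  · intro h0
    rw [h0, map_zero] at key
    rcases mul_eq_zero.mp key with h1 | h1
    · exact absurd h1 (pow_ne_zero _ ha')
    · exact h1
  · intro h0
    rw [h0, mul_zero] at key
    exact (IsFractionRing.injective (CR T) (FractionRing (CR T))) (by rw [← key, map_zero])

omit [IsDomain (CR (Tb 1 v q hq))] in
theorem Indep2_sum_val :
    ∑ i : Fin (q + 1), ((sr q hq (Fin.castLE hq.le i)).val) =
      ∑ i : Fin (q + 1), ((Fin.castLE hq.le i).val) + 1 := by
  rw [Fin.sum_univ_castSucc, Fin.sum_univ_castSucc]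
  have h1 : ∀ i : Fin q, (sr q hq (Fin.castLE hq.le i.castSucc)).val =
      (Fin.castLE hq.le i.castSucc).val := by
    intro i
    have hi := i.2
    rw [sr, Equiv.swap_apply_of_ne_of_ne]
    · intro h
      have := congrArg Fin.val h
      simp [q0] at this
      omega
    · intro h
      have := congrArg Fin.val h
      simp [q1] at this
      omega
  have h2 : sr q hq (Fin.castLE hq.le (Fin.last q)) = q1 q hq := by
    have : Fin.castLE hq.le (Fin.last q) = q0 q hq := by
      apply Fin.ext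
      simp [q0]
    rw [this, sr, Equiv.swap_apply_left]
  simp only [h1, h2]
  simp [q1]
  ring

theorem tau_not_const (hv : dsc v q hq) (hs : ble (sr q hq) (v * sr q hq)) (γ : ℂ) :
    tq v q hq ≠ algebraMap ℂ (FractionRing (CR (Tb 1 v q hq))) γ := by
  intro hτ
  have ha := a_ne_zero v q hq hv
  have ha' := Indep2_a_ne _ _ ha
  have hb := b_ne_zero v q hq hv hs
  apply hb
  have h1 : bP 1 v q hq - C γ * aP 1 v q hq ∈ VI (Tb 1 v q hq) := by
    rw [← Ideal.Quotient.eq_zero_iff_mem]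
    apply IsFractionRing.injective (CR (Tb 1 v q hq)) (FractionRing (CR (Tb 1 v q hq)))
    rw [map_zero, map_sub, map_sub, map_mul, map_mul]
    have h2 : algebraMap (CR (Tb 1 v q hq)) (FractionRing (CR (Tb 1 v q hq)))
        (Ideal.Quotient.mk (VI (Tb 1 v q hq)) (C γ)) =
        algebraMap ℂ (FractionRing (CR (Tb 1 v q hq))) γ := by
      rw [IsScalarTower.algebraMap_apply ℂ (CR (Tb 1 v q hq)) (FractionRing (CR (Tb 1 v q hq)))]
      rfl
    rw [h2, ← hτ, tq, tau, div_mul_cancel₀ _ ha', sub_self]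
  rw [mem_vanishingIdeal_iff] at h1 ⊢
  have h2 : ∀ y ∈ Tb 1 v q hq, aeval y (bP 1 v q hq) = γ * aeval y (aP 1 v q hq) := by
    intro y hy
    have := h1 y hy
    rw [map_sub, map_mul, aeval_C, sub_eq_zero] at this
    exact this
  intro y hy
  have hmono : Monotone (fun p : Fin n => p.val) := fun _ _ h => h
  have hl : (2 : ℂ) ≠ 0 := two_ne_zero
  have h3 := torus_Tb v q hq _ hmono 2 hl y hy
  have hB := scale_b v q hq _ hmono 2 hl y
  have hA := scale_a v q hq _ hmono 2 hl y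
  rw [Indep2_sum_val, pow_succ, ← mul_assoc] at hA
  rw [h2 _ h3] at hB
  have h4 := h2 y hy
  have hV : (2 : ℂ) ^ (∑ i : Fin (q + 1), (v (Fin.castLE hq.le i)).val) ≠ 0 := pow_ne_zero _ hl
  have h5 : (2 : ℂ) ^ (∑ i : Fin (q + 1), (v (Fin.castLE hq.le i)).val) *
      (2 * aeval y (bP 1 v q hq)) =
      (2 : ℂ) ^ (∑ i : Fin (q + 1), (v (Fin.castLE hq.le i)).val) * aeval y (bP 1 v q hq) := by
    rw [h4] at hB ⊢
    linear_combination γ * hA - 2 * hB
  have h6 := mul_left_cancel₀ hV h5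
  linear_combination h6

theorem tau_transc (hv : dsc v q hq) (hs : ble (sr q hq) (v * sr q hq)) (m : ℕ)
    (c : Fin (m + 1) → ℂ)
    (h : ∑ i, algebraMap ℂ (FractionRing (CR (Tb 1 v q hq))) (c i) * tq v q hq ^ (i : ℕ) = 0) :
    ∀ i, c i = 0 := by
  classical
  by_contra hne
  push Not at hne
  obtain ⟨i₀, hi₀⟩ := hne
  set p : Polynomial ℂ := ∑ i : Fin (m + 1), Polynomial.C (c i) * Polynomial.X ^ (i : ℕ) with hp
  have hcoeff : p.coeff i₀ = c i₀ := by
    rw [hp, Polynomial.finsetSum_coeff, Finset.sum_eq_single i₀]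
    · simp
    · intro i _ hi
      rw [Polynomial.coeff_C_mul_X_pow, if_neg]
      intro h1
      exact hi (Fin.ext h1.symm)
    · intro h1
      exact absurd (Finset.mem_univ _) h1
  have hp0 : p ≠ 0 := by
    intro h0
    rw [h0, Polynomial.coeff_zero] at hcoeff
    exact hi₀ hcoeff.symm
  have hroot : Polynomial.aeval (tq v q hq) p = 0 := by
    rw [hp, map_sum]
    simpa using h
  have halg : IsAlgebraic ℂ (tq v q hq) := ⟨p, hp0, hroot⟩
  have hint : IsIntegral ℂ (tq v q hq) := halg.isIntegral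
  have hdeg := IsAlgClosed.degree_eq_one_of_irreducible ℂ (minpoly.irreducible hint)
  obtain ⟨γ, hγ⟩ := minpoly.mem_range_of_degree_eq_one ℂ (tq v q hq) hdeg
  exact tau_not_const v q hq hv hs γ hγ.symm

/-- (H5) linear independence -/
theorem indep (hv : dsc v q hq) (hs : ble (sr q hq) (v * sr q hq)) (m : ℕ)
    (c : Fin (m + 1) → ℂ) (x : Fin (m + 1) → CR (Tb 1 v q hq))
    (hx : ∀ i, x i ∈ orig (Tb 1 v q hq))
    (h : ∑ i, algebraMap ℂ (FractionRing (CR (Tb 1 v q hq))) (c i) * tq v q hq ^ (i : ℕ) =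
      ∑ i, algebraMap (CR (Tb 1 v q hq)) (FractionRing (CR (Tb 1 v q hq))) (x i) *
        tq v q hq ^ (i : ℕ)) : ∀ i, c i = 0 := by
  have ha := a_ne_zero v q hq hv
  have hC : ∀ γ : ℂ, algebraMap (CR (Tb 1 v q hq)) (FractionRing (CR (Tb 1 v q hq)))
      (Ideal.Quotient.mk (VI (Tb 1 v q hq)) (C γ)) =
      algebraMap ℂ (FractionRing (CR (Tb 1 v q hq))) γ := by
    intro γ
    rw [IsScalarTower.algebraMap_apply ℂ (CR (Tb 1 v q hq)) (FractionRing (CR (Tb 1 v q hq)))]
    rfl
  have hlift : ∀ i, ∃ f ∈ Ideal.span (Set.range (X : Kap n q hq → MvPolynomial (Kap n q hq) ℂ)),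
      Ideal.Quotient.mk (VI (Tb 1 v q hq)) f = x i := by
    intro i
    have h1 : orig (Tb 1 v q hq) =
        (Ideal.span (Set.range (X : Kap n q hq → MvPolynomial (Kap n q hq) ℂ))).map
          (Ideal.Quotient.mk (VI (Tb 1 v q hq))) := by
      rw [Ideal.map_span, ← Set.range_comp]
      rfl
    have h2 := hx i
    rw [h1, Ideal.mem_map_iff_of_surjective _ Ideal.Quotient.mk_surjective] at h2
    exact h2
  choose F hF hFx using hlift
  have hG : (∑ i : Fin (m + 1), (C (c i) - F i) * aP 1 v q hq ^ (m - (i : ℕ)) *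
      bP 1 v q hq ^ (i : ℕ)) ∈ VI (Tb 1 v q hq) := by
    rw [Indep2_hom _ _ _ ha]
    have : ∀ i : Fin (m + 1), algebraMap (CR (Tb 1 v q hq)) (FractionRing (CR (Tb 1 v q hq)))
        (Ideal.Quotient.mk (VI (Tb 1 v q hq)) (C (c i) - F i)) *
        tau (Tb 1 v q hq) (aP 1 v q hq) (bP 1 v q hq) ^ (i : ℕ) =
        algebraMap ℂ (FractionRing (CR (Tb 1 v q hq))) (c i) * tq v q hq ^ (i : ℕ) -
        algebraMap (CR (Tb 1 v q hq)) (FractionRing (CR (Tb 1 v q hq))) (x i) *
        tq v q hq ^ (i : ℕ) := by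
      intro i
      rw [map_sub, map_sub, hC, hFx, sub_mul]
      rfl
    simp only [this]
    rw [Finset.sum_sub_distrib, h, sub_self]
  suffices hG0 : (∑ i : Fin (m + 1), C (c i) * aP 1 v q hq ^ (m - (i : ℕ)) *
      bP 1 v q hq ^ (i : ℕ)) ∈ VI (Tb 1 v q hq) by
    rw [Indep2_hom _ _ _ ha] at hG0
    simp only [hC] at hG0
    exact tau_transc v q hq hv hs m c hG0
  rw [mem_vanishingIdeal_iff] at hG ⊢
  intro y hy
  -- the weights
  obtain ⟨w, hwm, hwsr, hwpos⟩ : ∃ w : Fin n → ℕ, Monotone w ∧ (∀ p, w (sr q hq p) = w p) ∧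
      ∀ e : Kap n q hq, w e.1.1.2 < w e.1.1.1 := by
    refine ⟨fun p => if p.val ≤ q then p.val else p.val - 1, ?_, ?_, ?_⟩
    · intro p p' hpp
      have hpp' : p.val ≤ p'.val := hpp
      dsimp only
      split_ifs <;> omega
    · intro p
      by_cases h0 : p = q0 q hq
      · rw [h0, sr, Equiv.swap_apply_left]
        simp [q0, q1]
      · by_cases h1 : p = q1 q hq
        · rw [h1, sr, Equiv.swap_apply_right]
          simp [q0, q1]
        · rw [sr, Equiv.swap_apply_of_ne_of_ne h0 h1]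
    · rintro ⟨⟨⟨p, j⟩, hlow⟩, hne⟩
      have hlow' : j.val < p.val := hlow
      have hne' : ¬ (p.val = q + 1 ∧ j.val = q) := by
        rintro ⟨h1, h2⟩
        apply hne
        show (p, j) = (q1 q hq, q0 q hq)
        rw [Prod.mk.injEq]
        exact ⟨Fin.ext h1, Fin.ext h2⟩
      dsimp only
      split_ifs <;> omega
  set α := aeval y (aP 1 v q hq) with hα
  set β := aeval y (bP 1 v q hq) with hβ
  have hl : ∀ l : ℂ, l ≠ 0 → ∑ i : Fin (m + 1),
      (c i - aeval (tact w l y) (F i)) * (α ^ (m - (i : ℕ)) * β ^ (i : ℕ)) = 0 := by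
    intro l hl
    have h3 := torus_Tb v q hq w hwm l hl y hy
    have hB := scale_b v q hq w hwm l hl y
    have hA := scale_a v q hq w hwm l hl y
    simp only [hwsr] at hA
    have h4 := hG _ h3
    rw [map_sum] at h4
    set S := l ^ (∑ i : Fin (q + 1), w (Fin.castLE hq.le i)) with hS
    set V := l ^ (∑ i : Fin (q + 1), w (v (Fin.castLE hq.le i))) with hVdef
    have hV0 : V ≠ 0 := pow_ne_zero _ hl
    have h5 : S ^ m * ∑ i : Fin (m + 1), aeval (tact w l y) ((C (c i) - F i) *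
        aP 1 v q hq ^ (m - (i : ℕ)) * bP 1 v q hq ^ (i : ℕ)) =
        V ^ m * ∑ i : Fin (m + 1),
      (c i - aeval (tact w l y) (F i)) * (α ^ (m - (i : ℕ)) * β ^ (i : ℕ)) := by
      rw [Finset.mul_sum, Finset.mul_sum]
      refine Finset.sum_congr rfl fun i _ => ?_
      have hi : (i : ℕ) ≤ m := by
        have := i.2
        omega
      rw [map_mul, map_mul, map_sub, aeval_C, map_pow, map_pow]
      have e1 : S ^ m * (aeval (tact w l y) (aP 1 v q hq) ^ (m - (i : ℕ)) *
          aeval (tact w l y) (bP 1 v q hq) ^ (i : ℕ)) =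
          V ^ m * (α ^ (m - (i : ℕ)) * β ^ (i : ℕ)) := by
        rw [← pow_sub_mul_pow S hi, ← pow_sub_mul_pow V hi]
        have e2 : S ^ (m - (i : ℕ)) * aeval (tact w l y) (aP 1 v q hq) ^ (m - (i : ℕ)) =
            V ^ (m - (i : ℕ)) * α ^ (m - (i : ℕ)) := by
          rw [← mul_pow, ← mul_pow, mul_comm S, hA]
        have e3 : S ^ (i : ℕ) * aeval (tact w l y) (bP 1 v q hq) ^ (i : ℕ) =
            V ^ (i : ℕ) * β ^ (i : ℕ) := by
          rw [← mul_pow, ← mul_pow, mul_comm S, hB]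
        linear_combination (S ^ (i : ℕ) * aeval (tact w l y) (bP 1 v q hq) ^ (i : ℕ)) * e2 +
          (V ^ (m - (i : ℕ)) * α ^ (m - (i : ℕ))) * e3
      have e4 : (algebraMap ℂ ℂ) (c i) = c i := rfl
      rw [e4]
      linear_combination (c i - aeval (tact w l y) (F i)) * e1
    rw [h4, mul_zero] at h5
    rcases mul_eq_zero.mp h5.symm with h6 | h6
    · exact absurd h6 (pow_ne_zero _ hV0)
    · exact h6
  -- the polynomial in `l`
  set P : Fin (m + 1) → Polynomial ℂ := fun i => aeval (fun e : Kap n q hq =>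
    (Polynomial.X ^ (w e.1.1.1 - w e.1.1.2) * Polynomial.C (y e) : Polynomial ℂ)) (F i) with hP
  have hPeval : ∀ (l : ℂ) (f : MvPolynomial (Kap n q hq) ℂ), Polynomial.eval l
      (aeval (fun e : Kap n q hq =>
        (Polynomial.X ^ (w e.1.1.1 - w e.1.1.2) * Polynomial.C (y e) : Polynomial ℂ)) f) =
      aeval (tact w l y) f := by
    intro l f
    have h7 : ((Polynomial.aeval l : Polynomial ℂ →ₐ[ℂ] ℂ).comp (aeval (fun e : Kap n q hq =>
        (Polynomial.X ^ (w e.1.1.1 - w e.1.1.2) * Polynomial.C (y e) : Polynomial ℂ)))) =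
        (aeval (tact w l y) : MvPolynomial (Kap n q hq) ℂ →ₐ[ℂ] ℂ) := by
      apply MvPolynomial.algHom_ext
      intro e
      simp [tact]
      exact _root_.mul_comm _ _
    have h8 := DFunLike.congr_fun h7 f
    rw [AlgHom.comp_apply, Polynomial.coe_aeval_eq_eval] at h8
    exact h8
  have hP0 : ∀ i, Polynomial.eval 0 (P i) = 0 := by
    intro i
    rw [hP]
    dsimp only
    rw [hPeval]
    have h9 : Ideal.span (Set.range (X : Kap n q hq → MvPolynomial (Kap n q hq) ℂ)) ≤
        RingHom.ker (aeval (tact w 0 y) : MvPolynomial (Kap n q hq) ℂ →ₐ[ℂ] ℂ) := by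
      rw [Ideal.span_le]
      rintro _ ⟨e, rfl⟩
      show aeval (tact w 0 y) (X e) = 0
      rw [aeval_X, tact, zero_pow, zero_mul]
      have := hwpos e
      omega
    exact h9 (hF i)
  have hQ : (∑ i : Fin (m + 1), (Polynomial.C (c i) - P i) *
      Polynomial.C (α ^ (m - (i : ℕ)) * β ^ (i : ℕ))) = 0 := by
    apply Polynomial.eq_zero_of_infinite_isRoot
    refine Set.Infinite.mono (s := {0}ᶜ) ?_ (Set.finite_singleton (0 : ℂ)).infinite_compl
    intro l hl0
    have hl0' : l ≠ 0 := hl0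
    show Polynomial.eval l _ = 0
    rw [Polynomial.eval_finsetSum]
    rw [← hl l hl0']
    refine Finset.sum_congr rfl fun i _ => ?_
    rw [Polynomial.eval_mul, Polynomial.eval_sub, Polynomial.eval_C, Polynomial.eval_C, hP]
    dsimp only
    rw [hPeval]
  have hQ0 := congrArg (Polynomial.eval 0) hQ
  rw [Polynomial.eval_finsetSum, Polynomial.eval_zero] at hQ0
  rw [map_sum, ← hQ0]
  refine Finset.sum_congr rfl fun i _ => ?_
  rw [Polynomial.eval_mul, Polynomial.eval_sub, Polynomial.eval_C, Polynomial.eval_C, hP0,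
    sub_zero, map_mul, map_mul, aeval_C, map_pow, map_pow, mul_assoc]
  rfl

end CMT
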