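import Pool.Agent.H43.CM.H.Psu

/-!
# MP_7fe4b4_ag, job H-Mem : (S4), (S5)

`T = Tb 1 v q hq`, `v' = u' * sr q hq` (descent at `q`, `dsc_mul_iff`), `u' = v' * sr q hq` (`mul_sr_sr`).
`c ∈ CR T`, write `c = mk f0`, `f0 ∈ MvPolynomial κ ℂ`, `F0 = rename some f0`, `G0 = C.E.symm F0 ∈ A` with the coordinate change `C` of
`exists_gamE`.  Then `psu G0 = algebraMap c` (`psu_eq`, `psv_eq_toPoly`, `toPoly (rename some f0) = Polynomial.C (mk f0)`).

(S4) `mem_BU_iff`.
 `←`: `c ∈ Pb v'` means `f0 ∈ VI (Tb 1 v')` (`mk_mem_Pb`).  A point of `SS 1 u'` is `gam y` with `y ∈ Seq (Tb 1 v') a' b'` (`gam_mem_eq`), so its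
   `κ`-part is in `Tb 1 v'` and `aeval (gam y) G0 = aeval y F0 = aeval (y ∘ some) f0 = 0`.  So `G0 ∈ VI (SS 1 u')` and `c = psu G0 ∈ BU`.
 `→`: `c = psu g` with `g ∈ VI (SS 1 u')`.  `psu (G0 - g) = 0`, so `G0 - g ∈ VI (SS 1 (v * s))` (`mem_VI_u`) `≤ VI (SS 1 u')`
   (`VI_le_of_ble h'`), so `G0 ∈ VI (SS 1 u')`, i.e. `F0 ∈ VI (Seq T' a' b')` with `T' = Tb 1 v' q hq`, `a' = aP 1 v' q hq`.  `CR T'` is a domain
   (`Tb_dom`) and `a' ∉ VI T'` (`a_ne_zero` for `v'`), so `VI_Seq` gives `evTau T' a' b' (toPoly T' F0) = 0`, i.e.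
   `algebraMap (mk f0) = 0` in `FractionRing (CR T')`, so `f0 ∈ VI T'`, so `c ∈ Pb v'` (`mk_mem_Pb`).
(S5) `mem_BS_of_mem`: `f0 ∈ VI (Tb 1 v')`.  Let `G1 = C'.E.symm F0` with `C'` from `exists_gamE'`.  A point of `SS s u'` is `gam' y` with
   `y ∈ Seq (Tb 1 v') b' a'` (`gam'_mem_eq` with `x = 1`, `w = v'`; note `1 * s = s`), so `aeval (gam' y) G1 = aeval (y ∘ some) f0 = 0`; and
   `pss G1 = Polynomial.aeval τ⁻¹ (toPoly T F0) = algebraMap c`.
-/

open MvPolynomial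

noncomputable section

namespace CMT

variable {n : ℕ} (v : Equiv.Perm (Fin n)) (q : ℕ) (hq : q + 1 < n)
  [IsDomain (CR (Tb 1 v q hq))]

omit [IsDomain (CR (Tb 1 v q hq))] in
private theorem mem_aeval_pt {S : Type*} [CommRing S] [Algebra ℂ S]
    [Algebra (CR (Tb 1 v q hq)) S] [IsScalarTower ℂ (CR (Tb 1 v q hq)) S] (t : S)
    (f : MvPolynomial (Kap n q hq) ℂ) :
    aeval (pt (Tb 1 v q hq) t) (rename some f) =
      algebraMap (CR (Tb 1 v q hq)) S (Ideal.Quotient.mk (VI (Tb 1 v q hq)) f) := by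
  rw [aeval_rename]
  have h : (aeval (pt (Tb 1 v q hq) t ∘ some) : MvPolynomial (Kap n q hq) ℂ →ₐ[ℂ] S) =
      (IsScalarTower.toAlgHom ℂ (CR (Tb 1 v q hq)) S).comp
        (Ideal.Quotient.mkₐ ℂ (VI (Tb 1 v q hq))) := by
    apply MvPolynomial.algHom_ext
    intro j
    rw [aeval_X]
    rfl
  rw [h]
  rfl

private theorem mem_psu (C : CoordChange (Low n) (Option (Kap n q hq)))
    (hC : ∀ e, C.E (X e) = gam (fun i => (X i : MvPolynomial (Option (Kap n q hq)) ℂ)) e)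
    (f : MvPolynomial (Low n) ℂ) :
    psu v q hq f = aeval (pt (Tb 1 v q hq) (tq v q hq)) (C.E f) := by
  have h : psu v q hq = (aeval (pt (Tb 1 v q hq) (tq v q hq))).comp
      (C.E : MvPolynomial (Low n) ℂ →ₐ[ℂ] MvPolynomial (Option (Kap n q hq)) ℂ) := by
    apply MvPolynomial.algHom_ext
    intro e
    show psu v q hq (X e) = aeval (pt (Tb 1 v q hq) (tq v q hq)) (C.E (X e))
    unfold psu
    rw [aeval_X, hC]
    have h1 := map_gam ((aeval (pt (Tb 1 v q hq) (tq v q hq)) :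
      MvPolynomial (Option (Kap n q hq)) ℂ →ₐ[ℂ] _).toRingHom) (q := q) (hq := hq)
      (fun i => (X i : MvPolynomial (Option (Kap n q hq)) ℂ)) e
    refine Eq.trans ?_ h1.symm
    congr 1
    funext i
    exact (aeval_X _ i).symm
  rw [h]
  rfl

private theorem mem_pss (C : CoordChange (Low n) (Option (Kap n q hq)))
    (hC : ∀ e, C.E (X e) = gam' (fun i => (X i : MvPolynomial (Option (Kap n q hq)) ℂ)) e)
    (f : MvPolynomial (Low n) ℂ) :
    pss v q hq f = aeval (pt (Tb 1 v q hq) (tq v q hq)⁻¹) (C.E f) := by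
  have h : pss v q hq = (aeval (pt (Tb 1 v q hq) (tq v q hq)⁻¹)).comp
      (C.E : MvPolynomial (Low n) ℂ →ₐ[ℂ] MvPolynomial (Option (Kap n q hq)) ℂ) := by
    apply MvPolynomial.algHom_ext
    intro e
    show pss v q hq (X e) = aeval (pt (Tb 1 v q hq) (tq v q hq)⁻¹) (C.E (X e))
    unfold pss
    rw [aeval_X, hC]
    have h1 := map_gam' ((aeval (pt (Tb 1 v q hq) (tq v q hq)⁻¹) :
      MvPolynomial (Option (Kap n q hq)) ℂ →ₐ[ℂ] _).toRingHom) (q := q) (hq := hq)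
      (fun i => (X i : MvPolynomial (Option (Kap n q hq)) ℂ)) e
    refine Eq.trans ?_ h1.symm
    congr 1
    funext i
    exact (aeval_X _ i).symm
  rw [h]
  rfl

/-- (S4) -/
theorem mem_BU_iff (hv : dsc v q hq) {u' : Equiv.Perm (Fin n)} (ha : asc u' q hq)
    (h : ble (u' * sr q hq) v) (h' : ble u' (v * sr q hq)) (c : CR (Tb 1 v q hq)) :
    algebraMap _ (FractionRing (CR (Tb 1 v q hq))) c ∈ BU v q hq u' ↔
      c ∈ Pb v q hq (u' * sr q hq) := by
  have hv' : dsc (u' * sr q hq) q hq := (dsc_mul_iff u' q hq).2 ha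
  obtain ⟨f0, rfl⟩ := Ideal.Quotient.mk_surjective c
  obtain ⟨C, hC1, hC2⟩ := exists_gamE (n := n) q hq
  rw [mk_mem_Pb hv hv' h]
  have hG0 : psu v q hq (C.E.symm (rename some f0)) =
      algebraMap _ (FractionRing (CR (Tb 1 v q hq)))
        (Ideal.Quotient.mk (VI (Tb 1 v q hq)) f0) := by
    rw [mem_psu v q hq C hC2, AlgEquiv.apply_symm_apply, mem_aeval_pt]
  constructor
  · rintro ⟨g, hg, hgc⟩
    have h1 : C.E.symm (rename some f0) - g ∈ VI (SS 1 (v * sr q hq)) := by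
      rw [mem_VI_u v q hq hv, map_sub, hgc, hG0, sub_self]
    have h2 : C.E.symm (rename some f0) ∈ VI (SS 1 u') := by
      have := Ideal.add_mem _ (VI_le_of_ble h' h1) hg
      rwa [sub_add_cancel] at this
    have h3 : rename some f0 ∈ VI (Seq (Tb 1 (u' * sr q hq) q hq) (aP 1 (u' * sr q hq) q hq)
        (bP 1 (u' * sr q hq) q hq)) := by
      rw [mem_vanishingIdeal_iff] at h2 ⊢
      intro y hy
      have h4 := (gam_mem_eq 1 (u' * sr q hq) q hq (asc_one q hq) hv' y).2 hy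
      rw [mul_sr_sr] at h4
      have h5 := h2 _ h4
      rwa [← hC1, ← C.aeval_E, AlgEquiv.apply_symm_apply] at h5
    have := Tb_dom (u' * sr q hq) q hq hv'
    rw [VI_Seq _ _ _ (ab_ne_zero 1 _ q hq hv') (a_ne_zero _ q hq hv')] at h3
    have h6 : toPoly (Tb 1 (u' * sr q hq) q hq) (rename some f0) =
        Polynomial.C (Ideal.Quotient.mk (VI (Tb 1 (u' * sr q hq) q hq)) f0) := by
      have h7 : (toPoly (Tb 1 (u' * sr q hq) q hq)) =
          aeval (pt (Tb 1 (u' * sr q hq) q hq)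
            (Polynomial.X : Polynomial (CR (Tb 1 (u' * sr q hq) q hq)))) := by
        apply MvPolynomial.algHom_ext
        intro i
        rw [aeval_X]
        unfold toPoly
        rw [aeval_X]
        cases i with
        | none => rfl
        | some j => rfl
      rw [h7]
      exact mem_aeval_pt (u' * sr q hq) q hq
        (Polynomial.X : Polynomial (CR (Tb 1 (u' * sr q hq) q hq))) f0
    rw [h6] at h3
    unfold evTau at h3
    rw [Polynomial.aeval_C] at h3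
    exact Ideal.Quotient.eq_zero_iff_mem.1 ((IsFractionRing.injective _ _) (h3.trans
      (map_zero _).symm))
  · intro hf
    refine ⟨C.E.symm (rename some f0), ?_, hG0⟩
    rw [mem_vanishingIdeal_iff] at hf ⊢
    intro z hz
    obtain ⟨y, rfl⟩ := C.g_surj z
    rw [← C.aeval_E, AlgEquiv.apply_symm_apply, aeval_rename]
    apply hf
    rw [hC1] at hz
    have h4 := gam_mem_eq 1 (u' * sr q hq) q hq (asc_one q hq) hv' y
    rw [mul_sr_sr] at h4
    exact (h4.1 hz).1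

/-- (S5) -/
theorem mem_BS_of_mem (hv : dsc v q hq) {u' : Equiv.Perm (Fin n)} (ha : asc u' q hq)
    (h : ble (u' * sr q hq) v) (c : CR (Tb 1 v q hq)) (hc : c ∈ Pb v q hq (u' * sr q hq)) :
    algebraMap _ (FractionRing (CR (Tb 1 v q hq))) c ∈ BS v q hq u' := by
  have hv' : dsc (u' * sr q hq) q hq := (dsc_mul_iff u' q hq).2 ha
  obtain ⟨f0, rfl⟩ := Ideal.Quotient.mk_surjective c
  obtain ⟨C, hC1, hC2⟩ := exists_gamE' (n := n) q hq
  rw [mk_mem_Pb hv hv' h] at hc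
  refine ⟨C.E.symm (rename some f0), ?_, ?_⟩
  · rw [mem_vanishingIdeal_iff] at hc ⊢
    intro z hz
    obtain ⟨y, rfl⟩ := C.g_surj z
    rw [← C.aeval_E, AlgEquiv.apply_symm_apply, aeval_rename]
    apply hc
    rw [hC1] at hz
    have h4 := gam'_mem_eq 1 (u' * sr q hq) q hq (asc_one q hq) hv' y
    rw [mul_sr_sr, one_mul] at h4
    exact (h4.1 hz).1
  · rw [mem_pss v q hq C hC2, AlgEquiv.apply_symm_apply, mem_aeval_pt]

end CMT
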