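import Pool.Agent.H43.CM.H.Psu

/-!
# MP_7fe4b4_ag, job H-Rel : comparison of the minors in the charts at `e` and at `s`

* `psu_pmnr`: `psu (pmnr 1 w k) = mnr w k (lowMat (gam (pt T τ)))`: `pmnr` is a determinant of polynomials; apply the ring map
  (`RingHom.map_det`), `psu (X e) = gam (pt T τ) e`, `permMat 1 = 1`.
* `pss_pmnr'`: `pss (pmnr s w k) = mnr w k (permMat s * lowMat (gam' (pt T τ⁻¹)))`.
* Let `U = lowMat (ext0 (pt ..))` (entries `mk X_j`, the same in both).  `lowMat (gam ..) = U * xq τ` (`lowMat_gam`), and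
  `permMat s * lowMat (gam' ..) = permMat s * permMat s * U * permMat s * xq τ⁻¹ = U * permMat s * xq τ⁻¹` (`lowMat_gam'`).
  And `permMat s * xq τ⁻¹ = xq τ * W` with `W` upper triangular: `W = 1` outside rows and columns `q, q+1`, and the 2x2 block
  `[[τ⁻¹, 1], [0, -τ]]`.  (check entries: `[[0,1],[1,0]] * [[1,0],[τ⁻¹,1]] = [[τ⁻¹,1],[1,0]] = [[1,0],[τ,1]] * [[τ⁻¹,1],[0,-τ]]`.)
* `mnr_mul_upper`: for `W` upper triangular, `mnr w k (M * W) = mnr w k M * ∏_{i<k} W i i` (the first `k` columns of `M * W` are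
  the first `k` columns of `M` times the leading `k x k` block of `W`; `Matrix.det_mul`, `Matrix.det_of_upperTriangular`).
* the product of the first `k` diagonal entries of `W` is `1` for `k ≤ q`, `τ⁻¹` for `k = q+1`, `τ⁻¹ (-τ) = -1` for `k ≥ q+2`.
* `FS_eq`: `FS = ∏_k (pss Δ_k)^{e_k} = ∏ (factor_k)^{e_k} * FF`; the factor is `1` for `k ≤ q`, `(τ⁻¹)^{e_{q+1}}` for `k = q+1` (as `k : Fin n`,
  `q + 1 < n`), `(-1)^{e_k}` for `k > q+1`.  `e_{q+1} = h(q1) - h(q0) = -t`, so `(τ⁻¹)^(-t) = τ^t`.  The product of the signs is a sign.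
-/

open MvPolynomial

noncomputable section

namespace CMT

variable {n : ℕ}

theorem Rel_sum {R : Type*} [AddCommMonoid R] {k : ℕ} (hk : k ≤ n) (f : Fin n → R)
    (h : ∀ l : Fin n, k ≤ l.val → f l = 0) : ∑ l, f l = ∑ l : Fin k, f (Fin.castLE hk l) := by
  symm
  refine Fintype.sum_of_injective (Fin.castLE hk) (Fin.castLE_injective hk) _ _ (fun l hl => ?_)
    (fun _ => rfl)
  apply h
  by_contra hlt
  exact hl ⟨⟨l.val, by omega⟩, by ext; rfl⟩

theorem mnr_mul_upper' {R : Type*} [CommRing R] (w : Equiv.Perm (Fin n)) (k : ℕ) (hk : k ≤ n)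
    (M W : Matrix (Fin n) (Fin n) R) (hW : ∀ i j, j < i → W i j = 0) :
    mnr w k hk (M * W) = mnr w k hk M * ∏ i : Fin k, W (Fin.castLE hk i) (Fin.castLE hk i) := by
  have e : (Matrix.of fun i j : Fin k => (M * W) (w (Fin.castLE hk i)) (Fin.castLE hk j)) =
      (Matrix.of fun i j : Fin k => M (w (Fin.castLE hk i)) (Fin.castLE hk j)) *
        (Matrix.of fun i j : Fin k => W (Fin.castLE hk i) (Fin.castLE hk j)) := by
    ext i j
    rw [Matrix.of_apply, Matrix.mul_apply, Matrix.mul_apply, Rel_sum hk]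
    · rfl
    · intro l hl
      rw [hW l (Fin.castLE hk j) (by
        rw [Fin.lt_def]
        exact lt_of_lt_of_le j.2 hl), mul_zero]
  unfold mnr
  rw [e, Matrix.det_mul]
  congr 1
  rw [Matrix.det_of_isUpperTriangular]
  · rfl
  · intro i j hij
    exact hW _ _ hij

variable (v : Equiv.Perm (Fin n)) (q : ℕ) (hq : q + 1 < n) [IsDomain (CR (Tb 1 v q hq))]

theorem psu_pmnr (w : Equiv.Perm (Fin n)) (k : ℕ) (hk : k ≤ n) :
    psu v q hq (pmnr 1 w k hk) = mnr w k hk (lowMat (gam (pt (Tb 1 v q hq) (tq v q hq)))) := by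
  have h := mnr_map (psu v q hq : MvPolynomial (Low n) ℂ →ₐ[ℂ] _).toRingHom w k hk
    (permMat _ 1 * lowMat (fun e : Low n => (X e : MvPolynomial (Low n) ℂ)))
  rw [Matrix.map_mul, permMat_map, lowMat_map] at h
  refine Eq.trans h ?_
  rw [permMat_one, one_mul]
  congr 2
  ext e
  exact aeval_X _ e

theorem pss_pmnr' (w : Equiv.Perm (Fin n)) (k : ℕ) (hk : k ≤ n) :
    pss v q hq (pmnr (sr q hq) w k hk) =
      mnr w k hk (permMat _ (sr q hq) * lowMat (gam' (pt (Tb 1 v q hq) (tq v q hq)⁻¹))) := by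
  have h := mnr_map (pss v q hq : MvPolynomial (Low n) ℂ →ₐ[ℂ] _).toRingHom w k hk
    (permMat _ (sr q hq) * lowMat (fun e : Low n => (X e : MvPolynomial (Low n) ℂ)))
  rw [Matrix.map_mul, permMat_map, lowMat_map] at h
  refine Eq.trans h ?_
  congr 3
  ext e
  exact aeval_X _ e

/-- the matrix `W` of the header -/
def RelW {K : Type*} [Field K] (t : K) : Matrix (Fin n) (Fin n) K := fun i j =>
  if i = q0 q hq then (if j = q0 q hq then t⁻¹ else if j = q1 q hq then 1 else 0) else
    if i = q1 q hq then (if j = q1 q hq then -t else 0) else if i = j then 1 else 0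

theorem RelW_upper {K : Type*} [Field K] (t : K) (i j : Fin n) (h : j < i) :
    RelW q hq t i j = 0 := by
  have h01 : q0 q hq < q1 q hq := by
    rw [Fin.lt_def]
    exact Nat.lt_succ_self q
  unfold RelW
  by_cases h0 : i = q0 q hq
  · subst h0
    rw [if_pos rfl, if_neg h.ne, if_neg (h.trans h01).ne]
  · rw [if_neg h0]
    by_cases h1 : i = q1 q hq
    · subst h1
      rw [if_pos rfl, if_neg h.ne]
    · rw [if_neg h1, if_neg h.ne']

theorem RelW_eq {K : Type*} [Field K] (t : K) (ht : t ≠ 0) :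
    permMat K (sr q hq) * xq q hq t⁻¹ = xq q hq t * RelW q hq t := by
  have h01 : q0 q hq < q1 q hq := by
    rw [Fin.lt_def]
    exact Nat.lt_succ_self q
  have hs : (sr q hq)⁻¹ = sr q hq := Equiv.swap_inv _ _
  have hx : ∀ t : K, xq q hq t = Matrix.transvection (q1 q hq) (q0 q hq) t := fun _ => rfl
  ext i j
  rw [permMat_mul_apply, hs, hx t]
  by_cases h1 : i = q1 q hq
  · subst h1
    rw [Matrix.transvection_mul_apply_same]
    have : sr q hq (q1 q hq) = q0 q hq := Equiv.swap_apply_right _ _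
    rw [this]
    simp only [xq, RelW, Matrix.add_apply, Matrix.one_apply, Matrix.single_apply]
    by_cases hj0 : j = q0 q hq
    · subst hj0
      simp [h01.ne, h01.ne', ht]
    · by_cases hj1 : j = q1 q hq
      · subst hj1
        simp [h01.ne, h01.ne']
      · simp [hj0, hj1, Ne.symm hj0, h01.ne, h01.ne']
  · rw [Matrix.transvection_mul_apply_of_ne _ _ _ _ h1]
    by_cases h0 : i = q0 q hq
    · subst h0
      have : sr q hq (q0 q hq) = q1 q hq := Equiv.swap_apply_left _ _
      rw [this]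
      simp only [xq, RelW, Matrix.add_apply, Matrix.one_apply, Matrix.single_apply]
      by_cases hj0 : j = q0 q hq
      · subst hj0
        simp [h01.ne, h01.ne']
      · by_cases hj1 : j = q1 q hq
        · subst hj1
          simp [h01.ne, h01.ne']
        · simp [hj0, hj1, Ne.symm hj0, Ne.symm hj1]
    · have : sr q hq i = i := Equiv.swap_apply_of_ne_of_ne h0 h1
      rw [this]
      simp only [xq, RelW, Matrix.add_apply, Matrix.one_apply, Matrix.single_apply]
      simp [h0, h1, Ne.symm h1]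

theorem RelW_prod {K : Type*} [Field K] (t : K) (ht : t ≠ 0) (k : ℕ) (hk : k ≤ n) :
    ∏ i : Fin k, RelW q hq t (Fin.castLE hk i) (Fin.castLE hk i) =
      if k ≤ q then 1 else if k = q + 1 then t⁻¹ else -1 := by
  have h : ∀ i : Fin k, RelW q hq t (Fin.castLE hk i) (Fin.castLE hk i) =
      (fun m : ℕ => (if m = q then t⁻¹ else 1) * (if m = q + 1 then -t else 1)) i.val := by
    intro i
    have e0 : (Fin.castLE hk i = q0 q hq) ↔ i.val = q := Fin.ext_iff
    have e1 : (Fin.castLE hk i = q1 q hq) ↔ i.val = q + 1 := Fin.ext_iff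
    simp only [RelW, e0, e1]
    by_cases h0 : i.val = q
    · simp [h0]
    · by_cases h1 : i.val = q + 1
      · simp [h1]
      · simp [h0, h1]
  rw [Finset.prod_congr rfl (fun i _ => h i)]
  rw [Fin.prod_univ_eq_prod_range
    (fun m : ℕ => (if m = q then t⁻¹ else 1) * (if m = q + 1 then -t else 1)) k]
  rw [Finset.prod_mul_distrib, Finset.prod_ite_eq', Finset.prod_ite_eq']
  simp only [Finset.mem_range]
  by_cases h1 : k ≤ q
  · rw [if_neg (by omega), if_neg (by omega), if_pos h1, mul_one]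
  · by_cases h2 : k = q + 1
    · rw [if_pos (by omega), if_neg (by omega), if_neg h1, if_pos h2, mul_one]
    · rw [if_pos (by omega), if_pos (by omega), if_neg h1, if_neg h2]
      field_simp

theorem pss_pmnr (u : Equiv.Perm (Fin n)) (h0 : tq v q hq ≠ 0) (k : ℕ) (hk : k ≤ n) :
    pss v q hq (pmnr (sr q hq) u k hk) =
      (if k ≤ q then 1 else if k = q + 1 then (tq v q hq)⁻¹ else -1) *
        psu v q hq (pmnr 1 u k hk) := by
  have hss : permMat (FractionRing (CR (Tb 1 v q hq))) (sr q hq) *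
      permMat (FractionRing (CR (Tb 1 v q hq))) (sr q hq) = 1 := by
    rw [← permMat_mul]
    have : sr q hq * sr q hq = 1 := Equiv.swap_mul_self _ _
    rw [this, permMat_one]
  have hM : permMat (FractionRing (CR (Tb 1 v q hq))) (sr q hq) *
      lowMat (gam' (pt (Tb 1 v q hq) (tq v q hq)⁻¹)) =
      lowMat (gam (pt (Tb 1 v q hq) (tq v q hq))) * RelW q hq (tq v q hq) := by
    rw [lowMat_gam', lowMat_gam]
    rw [Matrix.mul_assoc (lowMat _) (xq q hq _) (RelW q hq _)]
    have e1 : pt (Tb 1 v q hq) (tq v q hq)⁻¹ none = (tq v q hq)⁻¹ := rfl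
    have e2 : pt (Tb 1 v q hq) (tq v q hq) none = tq v q hq := rfl
    rw [e1, e2, ← RelW_eq q hq _ h0]
    rw [← Matrix.mul_assoc, ← Matrix.mul_assoc, ← Matrix.mul_assoc, hss, Matrix.one_mul,
      ← Matrix.mul_assoc]
    rfl
  rw [pss_pmnr', hM, mnr_mul_upper' u k hk _ _ (RelW_upper q hq _), RelW_prod q hq _ h0 k hk,
    psu_pmnr, mul_comm]

theorem Rel_sign {K : Type*} [Field K] (e : ℤ) : ∃ ε : ℤˣ, (-1 : K) ^ e = ((ε : ℤ) : K) := by
  rcases Int.even_or_odd e with h | h
  · exact ⟨1, by rw [h.neg_one_zpow]; simp⟩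
  · exact ⟨-1, by rw [h.neg_one_zpow]; simp⟩

theorem FS_eq (u : Equiv.Perm (Fin n)) (h : Fin n → ℤ) (h0 : tq v q hq ≠ 0) (t : ℕ)
    (ht : h (q0 q hq) - h (q1 q hq) = t) :
    ∃ ε : ℤˣ, FS v q hq u h = ((ε : ℤ) : FractionRing (CR (Tb 1 v q hq))) *
      (FF v q hq u h * tq v q hq ^ t) := by
  have hk : ∀ k : Fin n, ∃ ε : ℤˣ, ((if k.val ≤ q then 1 else if k.val = q + 1 then
      (tq v q hq)⁻¹ else -1 : FractionRing (CR (Tb 1 v q hq))) ^ ex h k) =
      ((ε : ℤ) : FractionRing (CR (Tb 1 v q hq))) *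
        (if k = q1 q hq then tq v q hq ^ t else 1) := by
    intro k
    have e1 : (k = q1 q hq) ↔ k.val = q + 1 := Fin.ext_iff
    by_cases h1 : k.val ≤ q
    · refine ⟨1, ?_⟩
      rw [if_pos h1, if_neg (by rw [e1]; omega)]
      simp
    · rw [if_neg h1]
      by_cases h2 : k.val = q + 1
      · refine ⟨1, ?_⟩
        rw [if_pos h2, if_pos (e1.2 h2)]
        have hk1 : k = q1 q hq := e1.2 h2
        subst hk1
        have hex : ex h (q1 q hq) = -(t : ℤ) := by
          unfold ex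
          rw [dif_neg (by omega)]
          have : (⟨(q1 q hq).val - 1, by omega⟩ : Fin n) = q0 q hq := by
            rw [Fin.ext_iff]
            show q + 1 - 1 = q
            omega
          rw [this, ← ht]
          ring
        rw [hex, zpow_neg, inv_zpow, inv_inv, zpow_natCast]
        simp
      · rw [if_neg h2, if_neg (by rw [e1]; exact h2)]
        obtain ⟨ε, hε⟩ := Rel_sign (K := FractionRing (CR (Tb 1 v q hq))) (ex h k)
        exact ⟨ε, by rw [hε, mul_one]⟩
  choose ε hε using hk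
  refine ⟨∏ k, ε k, ?_⟩
  unfold FS FF
  rw [Finset.prod_congr rfl (fun k _ => by
    rw [pss_pmnr v q hq u h0 k.val k.isLt.le, mul_zpow, hε k])]
  rw [Finset.prod_mul_distrib, Finset.prod_mul_distrib, Finset.prod_ite_eq']
  rw [if_pos (Finset.mem_univ _), Units.coe_prod, Int.cast_prod]
  ring

end CMT
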