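import Pool.Agent.H43.CM.H.Abs2
import Pool.Agent.H43.CM.H.Count1
import Pool.Agent.H43.CM.H.Count2
import Pool.Agent.H43.CM.H.Count3
import Pool.Agent.H43.CM.H.Transp
import Pool.Agent.H43.CM.H.Mem
import Pool.Agent.H43.CM.H.Rel
import Pool.Agent.H43.CM.H.DivU2
import Pool.Agent.H43.CM.H.Indep2
import Pool.Agent.H43.CM.H.CrPoly

/-!
# MP_7fe4b4_ag, job H-Fin : the number of generators of the boundary ideal

Let `v = u * sr q hq` (`dsc v q` by `dsc_mul_iff`, `v * sr = u` by `mul_sr_sr`), `T = Tb 1 v q hq`, `R = CR T` (domain `Tb_dom`, integrally closed `Tb_int`,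
Noetherian), `K = FractionRing R`, `τ = tq v q hq ≠ 0` (`tt_ne_zero`), `m = t - 1`, `t = m + 1`.
Index type `ι = {u' // cov u' u}`; for `i : ι` `Pb i := Pb v q hq (u' * sr)`, `BU i`, `BS i`.
`b8_i` (needs `h(q0) ≠ h(q1)`, true as the difference is `t ≥ 1`): `asc u' q`, `cov (u' s) v`, `u' s ≠ u`.
`cc_iff`, `cc_surj` with `F = FF v q hq u h`: `hmul = BU_mul`, `h4 = mem_BU_iff`, `h5 = mem_BS_of_mem`, `hU = divU`, `hS`: `divS` with
`FS = ε F τ^t` (`FS_eq`; the sign `ε` is a unit and can be absorbed in `y`).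
bb := `⨅ i, Pb i` is radical (intersection of primes `Pb_isPrime`).
N := the image of `bd 1 v` under the isomorphism `CR (SS 1 v) ≃ R[X]` induced by `psv` (kernel `VI (SS 1 v)`: from `psv_coeff` with `v' = v`:
`Pb v q hq v = ⊥`, surjective: `psv_surjective`).  For `f ∈ A`: `mk f ∈ bd 1 v ↔ ∀ v' with cov v' v, f ∈ VI (SS 1 v')` (`mk_mem_Pid`), and the `v'`
are `u` and the `u' s` (`b8_i`, `b8_ii`); `f ∈ VI (SS 1 u) ↔ aeval τ (psv f) = 0` (`mem_VI_u`, `psu_eq`); `f ∈ VI (SS 1 (u' s)) ↔` all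
coefficients of `psv f` in `Pb i` (`psv_coeff`).  So `a ∈ bd 1 v ↔ e a ∈ kerI bb τ` for the isomorphism `e` of `exists_crPoly`
(`kerI`: C/Tau.lean, `Ideal.mem_map_C_iff`).  `orig (SS 1 v)` corresponds to `(orig T, X)` (`psv_orig`).
`finrank_transport`, `count_N`, `count_cc` (with `hind = indep`, `hn`: every element of `R` is a constant plus an element of `orig T`:
`f - C (constant term)`), so the number is `m + 1 = t`.
-/

open MvPolynomial

noncomputable section

namespace CMT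

variable {n : ℕ}

/-- every element of a coordinate ring is a constant plus an element of the ideal of the origin -/
theorem fin_const {ι : Type} (S : Set (ι → ℂ)) (r : CR S) :
    ∃ c : ℂ, r - algebraMap ℂ (CR S) c ∈ orig S := by
  obtain ⟨f, rfl⟩ := Ideal.Quotient.mk_surjective r
  induction f using MvPolynomial.induction_on with
  | C a =>
    refine ⟨a, ?_⟩
    have : (Ideal.Quotient.mk (VI S)) (C a) = algebraMap ℂ (CR S) a := rfl
    rw [this, sub_self]
    exact Ideal.zero_mem _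
  | add f g hf hg =>
    obtain ⟨a, ha⟩ := hf
    obtain ⟨b, hb⟩ := hg
    refine ⟨a + b, ?_⟩
    rw [map_add, map_add]
    have : (Ideal.Quotient.mk (VI S)) f + (Ideal.Quotient.mk (VI S)) g -
        (algebraMap ℂ (CR S) a + algebraMap ℂ (CR S) b) =
        ((Ideal.Quotient.mk (VI S)) f - algebraMap ℂ (CR S) a) +
        ((Ideal.Quotient.mk (VI S)) g - algebraMap ℂ (CR S) b) := by ring
    rw [this]
    exact Ideal.add_mem _ ha hb
  | mul_X f i hf =>
    refine ⟨0, ?_⟩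
    rw [map_zero, sub_zero, map_mul]
    exact Ideal.mul_mem_left _ _ (Ideal.subset_span ⟨i, rfl⟩)

theorem fin_mem_bd {v : Equiv.Perm (Fin n)} (f : MvPolynomial (Low n) ℂ) :
    Ideal.Quotient.mk (VI (SS 1 v)) f ∈ bd 1 v ↔ ∀ w, cov w v → f ∈ VI (SS 1 w) := by
  unfold bd
  rw [Ideal.mem_iInf]
  constructor
  · intro h w hw
    exact (mk_mem_Pid hw.1 f).1 (h ⟨w, hw⟩)
  · rintro h ⟨w, hw⟩
    exact (mk_mem_Pid hw.1 f).2 (h w hw)

/-- PART H: the number of generators of the boundary ideal -/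
theorem finrank_bd (u : Equiv.Perm (Fin n)) (h : Fin n → ℤ) (hu : RankFun u h) (q : ℕ)
    (hq : q + 1 < n) (ha : asc u q hq) (hs : ble (sr q hq) u) (t : ℕ) (ht : 1 ≤ t)
    (hh : h (q0 q hq) - h (q1 q hq) = t) :
    Module.finrank ℂ (bd 1 (u * sr q hq) ⧸ (orig (SS 1 (u * sr q hq)) •
      (⊤ : Submodule (CR (SS 1 (u * sr q hq))) (bd 1 (u * sr q hq))))) = t := by
  obtain ⟨m, rfl⟩ : ∃ m, t = m + 1 := ⟨t - 1, by omega⟩
  set v := u * sr q hq with hvdef
  have hv : dsc v q hq := (dsc_mul_iff u q hq).2 ha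
  have hvu : v * sr q hq = u := mul_sr_sr u q hq
  have hs' : ble (sr q hq) (v * sr q hq) := by rw [hvu]; exact hs
  have hcovu : cov u v := cov_mul_sr q hq ha
  haveI := Tb_dom v q hq hv
  haveI := Tb_int v q hq hv
  set τ := tq v q hq with hτdef
  have hτ : τ ≠ 0 := tt_ne_zero v q hq hv hs'
  have hhne : h (q0 q hq) ≠ h (q1 q hq) := by
    intro h0
    rw [h0, sub_self] at hh
    push_cast at hh
    omega
  have hb8 : ∀ i : {u' : Equiv.Perm (Fin n) // cov u' u}, asc i.1 q hq ∧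
      cov (i.1 * sr q hq) v ∧ i.1 * sr q hq ≠ u := fun i => b8_i hu q hq ha hhne i.2
  set F := FF v q hq u h with hFdef
  have hF : F ≠ 0 := by
    have := FF_ne_zero v q hq hv h
    rwa [hvu] at this
  obtain ⟨ε, hε⟩ := FS_eq v q hq u h hτ (m + 1) hh
  have hUu := divU v q hq hv h (by rw [hvu]; exact hu)
  have hSu := divS v q hq hv hs' h (by rw [hvu]; exact hu)
  rw [hvu] at hUu hSu
  have hε2 : ((ε : ℤ) : FractionRing (CR (Tb 1 v q hq))) * ((ε : ℤ) : FractionRing (CR (Tb 1 v q hq))) = 1 := by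
    rw [← Int.cast_mul]
    have : (ε : ℤ) * (ε : ℤ) = 1 := by
      rw [← Units.val_mul, Int.units_mul_self]; rfl
    rw [this, Int.cast_one]
  have hS' : ∀ x, (x ∈ Algebra.adjoin (CR (Tb 1 v q hq)) {τ⁻¹} ∧
      ∀ i : {u' : Equiv.Perm (Fin n) // cov u' u}, x ∈ BS v q hq i.1) ↔
      ∃ y ∈ Algebra.adjoin (CR (Tb 1 v q hq)) {τ⁻¹}, x = F * τ ^ (m + 1) * y := by
    intro x
    rw [hSu x, hε]
    constructor
    · rintro ⟨y, hy, rfl⟩
      refine ⟨((ε : ℤ) : FractionRing (CR (Tb 1 v q hq))) * y, ?_, by ring⟩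
      exact Subalgebra.mul_mem _ (Subalgebra.intCast_mem _ _) hy
    · rintro ⟨y, hy, rfl⟩
      refine ⟨((ε : ℤ) : FractionRing (CR (Tb 1 v q hq))) * y, ?_, ?_⟩
      · exact Subalgebra.mul_mem _ (Subalgebra.intCast_mem _ _) hy
      · calc F * τ ^ (m + 1) * y = (((ε : ℤ) : FractionRing (CR (Tb 1 v q hq))) *
            ((ε : ℤ) : FractionRing (CR (Tb 1 v q hq)))) * (F * τ ^ (m + 1) * y) := by
              rw [hε2, one_mul]
          _ = _ := by ring
  set Pi : {u' : Equiv.Perm (Fin n) // cov u' u} → Ideal (CR (Tb 1 v q hq)) :=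
    fun i => Pb v q hq (i.1 * sr q hq) with hPi
  have h4 : ∀ (i : {u' : Equiv.Perm (Fin n) // cov u' u}) (c : CR (Tb 1 v q hq)),
      algebraMap _ (FractionRing (CR (Tb 1 v q hq))) c ∈ BU v q hq i.1 ↔ c ∈ Pi i := by
    intro i c
    exact mem_BU_iff v q hq hv (hb8 i).1 (hb8 i).2.1.1 (by rw [hvu]; exact i.2.1) c
  have h5 : ∀ (i : {u' : Equiv.Perm (Fin n) // cov u' u}) (c : CR (Tb 1 v q hq)), c ∈ Pi i →
      algebraMap _ (FractionRing (CR (Tb 1 v q hq))) c ∈ BS v q hq i.1 := by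
    intro i c hc
    exact mem_BS_of_mem v q hq hv (hb8 i).1 (hb8 i).2.1.1 c hc
  have hcc := cc_iff τ hτ m F hF Pi (fun i => BU v q hq i.1) (fun i => BS v q hq i.1)
    (fun i x hx => BU_mul v q hq i.1 x hx) h4 h5 hUu hS'
  have hJ := cc_surj (R := CR (Tb 1 v q hq)) τ hτ m F (fun i : {u' : Equiv.Perm (Fin n) // cov u' u} => BU v q hq i.1)
    (fun i => BS v q hq i.1) hUu hS'
  have hPp : ∀ i, (Pi i).IsPrime := fun i =>
    Pb_isPrime hv ((dsc_mul_iff _ q hq).2 (hb8 i).1) (hb8 i).2.1.1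
  have hrad : (⨅ i, Pi i).IsRadical := by
    intro x hx
    obtain ⟨k, hk⟩ := hx
    rw [Ideal.mem_iInf] at hk ⊢
    intro i
    exact (hPp i).mem_of_pow_mem _ (hk i)
  obtain ⟨e, he, heo⟩ := exists_crPoly v q hq hv
  have key : ∀ a, a ∈ bd 1 v ↔ e a ∈ kerI (⨅ i, Pi i) τ := by
    intro a
    obtain ⟨f, rfl⟩ := Ideal.Quotient.mk_surjective a
    rw [fin_mem_bd, he]
    unfold kerI
    rw [Ideal.mem_inf, Ideal.mem_map_C_iff, RingHom.mem_ker]
    have hu0 : f ∈ VI (SS 1 u) ↔ Polynomial.aeval τ (psv v q hq f) = 0 := by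
      have := mem_VI_u v q hq hv f
      rw [hvu] at this
      rw [this, psu_eq]
    constructor
    · intro hf
      refine ⟨fun j => ?_, hu0.1 (hf u hcovu)⟩
      rw [Ideal.mem_iInf]
      intro i
      exact (psv_coeff hv ((dsc_mul_iff _ q hq).2 (hb8 i).1) (hb8 i).2.1.1 f).1
        (hf _ (hb8 i).2.1) j
    · rintro ⟨h1, h2⟩ w hw
      by_cases hwu : w = u
      · subst hwu
        exact hu0.2 h2
      · obtain ⟨hd, hc⟩ := b8_ii q hq ha hw hwu
        have hw2 : w * sr q hq * sr q hq = w := mul_sr_sr w q hq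
        have := (psv_coeff hv hd hw.1 f).2 (fun j => by
          have := h1 j
          rw [Ideal.mem_iInf] at this
          have := this ⟨w * sr q hq, hc⟩
          simp only [hPi, hw2] at this
          exact this)
        exact this
  have h1 := finrank_transport e (bd 1 v) (orig (SS 1 v)) (kerI (⨅ i, Pi i) τ)
    ((orig (Tb 1 v q hq)).map Polynomial.C ⊔ Ideal.span {Polynomial.X}) key heo
  rw [h1, count_N τ (⨅ i, Pi i) hrad (orig (Tb 1 v q hq))]
  exact count_cc τ (⨅ i, Pi i) (orig (Tb 1 v q hq)) (fin_const _) m F hF hcc hJ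
    (indep v q hq hv hs' m)

end CMT
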