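import Pool.Agent.H43.CM.H.Psu

/-!
# MP_7fe4b4_ag, job H-Indep : (H5) linear independence

`T = Tb 1 v q hq`, `a = aP 1 v q hq`, `b = bP 1 v q hq`, `τ = b/a` with `a, b ∉ VI T` (`a_ne_zero`, `b_ne_zero`).

For a monotone `c : Fin n → ℕ` and `l ≠ 0` let `l · y = (l^(c e.1.1.1 - c e.1.1.2) y_e)_e` for `y : Kap n q hq → ℂ`.
* `torus_Tb`: `y ∈ T ⟹ l · y ∈ T`.  `Tb x w` is `{y : ext0 y ∈ SS x w ∪ SS x (w s)}`; `ext0 (l · y) = l · ext0 y`; `torus_SS`.
* `scale_b`: `mnr v (q+1) (lowMat (ext0 (l · y))) * l^(∑_{i ≤ q} c i) = l^(∑_{i ≤ q} c (v i)) * mnr v (q+1) (lowMat (ext0 y))`: since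
  `lowMat (l · z) = D (lowMat z) D⁻¹`, `D = diag(l^{c i})`; rows `v i`, columns `j ≤ q`.  (`Matrix.det_mul_row/column`.)
* `scale_a`: the same for `a`: columns `0..q-1, q+1`: `aeval (l·y) a * l^(∑_{i<q} c i + c (q+1)) = l^(∑_{i ≤ q} c (v i)) * aeval y a`.

(1) `tau_not_const`: there is no `γ : ℂ` with `τ = γ`.  Otherwise `b - γ a ∈ VI T`.  Use `c = fun p => p.val` (so `c (q+1) = c q + 1`): for
   `y ∈ T`, `l ≠ 0`: `b(l·y) = γ a(l·y)`, i.e. `l^{B} b(y) l^{-A0 - q} = γ l^{B} a(y) l^{-A0-(q+1)}` (with `A0 = ∑_{i<q} i`), so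
   `l b(y) = γ a(y) ` for all `l ≠ 0`; as also `b(y) = γ a(y)`, taking `l = 2`: `b(y) = 0`.  So `b ∈ VI T`, contradiction.
(2) so `τ` is transcendental over `ℂ` (`ℂ` algebraically closed, `K` a field: an algebraic element is in the image of `ℂ`;
   `IsAlgClosed.algebraMap_surjective_of_isIntegral` or via `minpoly` and `IsAlgClosed.splits`): `∑ c_i τ^i = 0 ⟹ all c_i = 0`.
(3) `indep`: let `∑ c_i τ^i = ∑ x_i τ^i`, `x_i = mk (X_i)` with `X_i ∈ span (range X)` (lift: `orig T` is the image of `span (range X)`).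
   Multiply by `a^m`: `∑ c_i a^{m-i} b^i - ∑ X_i a^{m-i} b^i ∈ VI T` (the map `CR T → K` is injective).  Use now
   `c p = p` for `p ≤ q`, `c p = p - 1` for `p > q` (monotone; `c (q+1) = c q = q`): then `a` and `b` scale with the same factor `l^δ`,
   `δ = ∑_{i ≤ q} c (v i) - ∑_{i ≤ q} c i ∈ ℤ`, and every variable of `Kap n q hq` has weight `≥ 1` (for `e = (p, j)`, `j < p`, `(p,j) ≠ (q+1,q)`:
   `c p > c j`).  Evaluate at `l · y`, `y ∈ T`, divide by `l^{m δ}`: `∑ c_i a(y)^{m-i} b(y)^i = ∑ X_i(l · y) a(y)^{m-i} b(y)^i` for all `l ≠ 0`.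
   `X_i(l · y)` is a polynomial in `l` with constant term `X_i(0) = 0` (`X_i ∈ span (range X)`).  So the polynomial in `l`
   `∑ c_i a^{m-i} b^i - ∑ X_i(l·y) a^{m-i} b^i` vanishes for all `l ≠ 0`, so it vanishes at `l = 0`: `∑ c_i a(y)^{m-i} b(y)^i = 0` for all `y ∈ T`.
   So `∑ c_i a^{m-i} b^i ∈ VI T`, `∑ c_i τ^i = 0`, and (2).
-/

open MvPolynomial

noncomputable section

namespace CMT

variable {n : ℕ} (v : Equiv.Perm (Fin n)) (q : ℕ) (hq : q + 1 < n)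

/-- the torus action on the points of `Kap` -/
def tact {n : ℕ} {q : ℕ} {hq : q + 1 < n} (c : Fin n → ℕ) (l : ℂ) (y : Kap n q hq → ℂ) :
    Kap n q hq → ℂ :=
  fun e => l ^ (c e.1.1.1 - c e.1.1.2) * y e

theorem indep_ext0 (c : Fin n → ℕ) (l : ℂ) (y : Kap n q hq → ℂ) :
    (ext0 (tact c l y) : Low n → ℂ) = fun e : Low n => l ^ (c e.1.1 - c e.1.2) * ext0 y e := by
  funext e
  unfold ext0
  split_ifs with h
  · rw [mul_zero]
  · rfl

theorem torus_Tb (c : Fin n → ℕ) (hc : Monotone c) (l : ℂ) (hl : l ≠ 0) (y : Kap n q hq → ℂ)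
    (hy : y ∈ Tb 1 v q hq) : tact c l y ∈ Tb 1 v q hq := by
  change permMat ℂ 1 * lowMat (ext0 (tact c l y)) ∈ Cell v ∪ Cell (v * sr q hq)
  rw [indep_ext0]
  rcases hy with hy | hy
  · exact Or.inl (torus_SS (x := 1) (v := v) c hc l hl hy)
  · exact Or.inr (torus_SS (x := 1) (v := v * sr q hq) c hc l hl hy)

theorem indep_key (c : Fin n → ℕ) (hc : Monotone c) (l : ℂ) (y : Kap n q hq → ℂ)
    (i j : Fin n) : lowMat (ext0 (tact c l y)) i j * l ^ c j = l ^ c i * lowMat (ext0 y) i j := by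
  rw [indep_ext0]
  rcases lt_trichotomy i j with h | rfl | h
  · rw [lowMat_gt _ h, lowMat_gt _ h, zero_mul, mul_zero]
  · rw [lowMat_diag, lowMat_diag, one_mul, mul_one]
  · rw [lowMat_lt _ h, lowMat_lt _ h]
    have h1 : l ^ c i = l ^ (c i - c j) * l ^ c j := by
      rw [← pow_add, Nat.sub_add_cancel (hc h.le)]
    simp only
    rw [h1]
    ring

theorem indep_mnr (w : Equiv.Perm (Fin n)) (k : ℕ) (hk : k ≤ n)
    (M M' : Matrix (Fin n) (Fin n) ℂ) (α β : Fin n → ℂ) (h : ∀ i j, M' i j * β j = α i * M i j) :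
    mnr w k hk M' * ∏ j : Fin k, β (Fin.castLE hk j) =
      (∏ i : Fin k, α (w (Fin.castLE hk i))) * mnr w k hk M := by
  unfold mnr
  rw [mul_comm, ← Matrix.det_mul_row, ← Matrix.det_mul_column]
  congr 1
  ext i j
  simp only [Matrix.of_apply]
  rw [mul_comm]
  exact h _ _

theorem scale_b (c : Fin n → ℕ) (hc : Monotone c) (l : ℂ) (hl : l ≠ 0) (y : Kap n q hq → ℂ) :
    aeval (tact c l y) (bP 1 v q hq) * l ^ (∑ i : Fin (q + 1), c (Fin.castLE hq.le i)) =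
      l ^ (∑ i : Fin (q + 1), c (v (Fin.castLE hq.le i))) * aeval y (bP 1 v q hq) := by
  rw [aeval_bP, aeval_bP]
  unfold bb
  rw [permMat_one, Matrix.one_mul, Matrix.one_mul]
  have h := indep_mnr v (q + 1) hq.le (lowMat (ext0 y)) (lowMat (ext0 (tact c l y)))
    (fun i => l ^ c i) (fun j => l ^ c j) (fun i j => indep_key q hq c hc l y i j)
  rw [Finset.prod_pow_eq_pow_sum, Finset.prod_pow_eq_pow_sum] at h
  rw [neg_mul, mul_neg, h]

theorem scale_a (c : Fin n → ℕ) (hc : Monotone c) (l : ℂ) (hl : l ≠ 0) (y : Kap n q hq → ℂ) :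
    aeval (tact c l y) (aP 1 v q hq) * l ^ (∑ i : Fin (q + 1), c (sr q hq (Fin.castLE hq.le i))) =
      l ^ (∑ i : Fin (q + 1), c (v (Fin.castLE hq.le i))) * aeval y (aP 1 v q hq) := by
  rw [aeval_aP, aeval_aP]
  unfold aa
  rw [permMat_one, Matrix.one_mul, Matrix.one_mul]
  have h := indep_mnr v (q + 1) hq.le (lowMat (ext0 y) * permMat ℂ (sr q hq))
    (lowMat (ext0 (tact c l y)) * permMat ℂ (sr q hq))
    (fun i => l ^ c i) (fun j => l ^ c (sr q hq j)) (fun i j => by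
      rw [mul_permMat_apply, mul_permMat_apply]
      exact indep_key q hq c hc l y i (sr q hq j))
  rw [Finset.prod_pow_eq_pow_sum, Finset.prod_pow_eq_pow_sum] at h
  exact h

end CMT
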