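import Pool.Agent.H43.CM.H.Psv

/-!
# MP_7fe4b4_ag, job H-Psu : the maps `psu, pss : A → K`

`T = Tb 1 v q hq`, `a = aP 1 v q hq`, `b = bP 1 v q hq`, `τ = tq v q hq = b/a`, `c`, `c'` from `exists_gamE`, `exists_gamE'`.
* `psu_eq`: both sides are algebra maps `A → K` (compose `psv` with `Polynomial.aeval τ`), check on variables: `map_gam` and
  `Polynomial.aeval τ (pt T X i) = pt T τ i`.
* `pss_eq`: `pss f = Polynomial.aeval τ⁻¹ (toPoly T (c'.E f))`: same with `c'`, `map_gam'`.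
* `a_ne_zero`: `SS 1 (v * sr q hq)` is nonempty (`SS_nonempty_of_ble (ble_one _)`), so `Seq T a b` is nonempty (`gam_mem_eq` with `w := v`,
  `c.g_surj`), so `a ∉ VI T` by `Seq_nonempty_iff` (`ab_ne_zero`).
* `b_ne_zero`: `SS s (v * s)` is nonempty (`SS_nonempty_of_ble hs`), here `s = 1 * s`; so `Seq T b a` nonempty (`gam'_mem_eq` with `x = 1`), so
  `b ∉ VI T`.
* `tt_ne_zero`: numerator and denominator are nonzero in `K`.
* `mem_VI_u`: `f ∈ VI (SS 1 (v*s)) ↔ c.E f ∈ VI (Seq T a b)` (`gam_mem_eq`, `aeval_E`, `g_surj`) `↔ evTau T a b (toPoly T (c.E f)) = 0`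
  (`VI_Seq`, `a_ne_zero`) and `evTau T a b p = Polynomial.aeval τ p`, `psv_eq_toPoly`, `psu_eq`.
* `mem_VI_s`: same with `gam'`, `c'`, `VI_Seq T b a` and `tau T b a = τ⁻¹` (`inv_div`).
* `range_psu`, `range_pss`: `psv` resp. `toPoly ∘ c'.E` is surjective and the range of `Polynomial.aeval τ` is `Algebra.adjoin R {τ}`
  (`Algebra.adjoin_singleton_eq_range_aeval`).
-/

open MvPolynomial

noncomputable section

namespace CMT

variable {n : ℕ} (v : Equiv.Perm (Fin n)) (q : ℕ) (hq : q + 1 < n)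
  [IsDomain (CR (Tb 1 v q hq))]

theorem psu_eq (f : MvPolynomial (Low n) ℂ) :
    psu v q hq f = Polynomial.aeval (tq v q hq) (psv v q hq f) := by
  have h : psu v q hq = ((Polynomial.aeval (R := CR (Tb 1 v q hq))
      (tq v q hq)).restrictScalars ℂ).comp (psv v q hq) := by
    apply MvPolynomial.algHom_ext
    intro e
    rw [AlgHom.comp_apply, psu, psv, aeval_X, aeval_X, AlgHom.restrictScalars_apply]
    have h1 := map_gam (Polynomial.aeval (R := CR (Tb 1 v q hq)) (tq v q hq)).toRingHom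
      (pt (Tb 1 v q hq) (Polynomial.X : Polynomial (CR (Tb 1 v q hq)))) e
    refine Eq.trans ?_ h1.symm
    congr 1
    funext i
    cases i with
    | none => exact (Polynomial.aeval_X _).symm
    | some j => exact ((Polynomial.aeval (R := CR (Tb 1 v q hq)) (tq v q hq)).commutes _).symm
  rw [h]
  rfl

theorem Psu_Seq_nonempty (hv : dsc v q hq) :
    (Seq (Tb 1 v q hq) (aP 1 v q hq) (bP 1 v q hq)).Nonempty := by
  obtain ⟨z, hz⟩ := SS_nonempty_of_ble (ble_one (v * sr q hq))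
  obtain ⟨c, hc, -⟩ := exists_gamE (n := n) q hq
  obtain ⟨y, rfl⟩ := c.g_surj z
  rw [hc] at hz
  exact ⟨y, (gam_mem_eq 1 v q hq (asc_one q hq) hv y).1 hz⟩

theorem a_ne_zero (hv : dsc v q hq) : aP 1 v q hq ∉ VI (Tb 1 v q hq) :=
  (Seq_nonempty_iff _ _ _ (ab_ne_zero 1 v q hq hv)).1 (Psu_Seq_nonempty v q hq hv)

theorem Psu_ba (hv : dsc v q hq) (y : Kap n q hq → ℂ) (hy : y ∈ Tb 1 v q hq) :
    ¬ (aeval y (bP 1 v q hq) = 0 ∧ aeval y (aP 1 v q hq) = 0) := fun h =>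
  ab_ne_zero 1 v q hq hv y hy h.symm

theorem Psu_mem_eq' (hv : dsc v q hq) (y : Option (Kap n q hq) → ℂ) :
    gam' y ∈ SS (sr q hq) (v * sr q hq) ↔
      y ∈ Seq (Tb 1 v q hq) (bP 1 v q hq) (aP 1 v q hq) := by
  have h := gam'_mem_eq 1 v q hq (asc_one q hq) hv y
  rwa [one_mul] at h

theorem b_ne_zero (hv : dsc v q hq) (hs : ble (sr q hq) (v * sr q hq)) :
    bP 1 v q hq ∉ VI (Tb 1 v q hq) := by
  refine (Seq_nonempty_iff _ _ _ (Psu_ba v q hq hv)).1 ?_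
  obtain ⟨z, hz⟩ := SS_nonempty_of_ble hs
  obtain ⟨c, hc, -⟩ := exists_gamE' (n := n) q hq
  obtain ⟨y, rfl⟩ := c.g_surj z
  rw [hc] at hz
  exact ⟨y, (Psu_mem_eq' v q hq hv y).1 hz⟩

theorem Psu_map_ne {f : MvPolynomial (Kap n q hq) ℂ} (hf : f ∉ VI (Tb 1 v q hq)) :
    algebraMap (CR (Tb 1 v q hq)) (FractionRing (CR (Tb 1 v q hq)))
      (Ideal.Quotient.mk (VI (Tb 1 v q hq)) f) ≠ 0 := by
  intro h0
  apply hf
  rw [← Ideal.Quotient.eq_zero_iff_mem]
  exact (IsFractionRing.injective (CR (Tb 1 v q hq)) (FractionRing (CR (Tb 1 v q hq))))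
    (by rw [h0, map_zero])

theorem tt_ne_zero (hv : dsc v q hq) (hs : ble (sr q hq) (v * sr q hq)) : tq v q hq ≠ 0 := by
  unfold tq tau
  exact div_ne_zero (Psu_map_ne v q hq (b_ne_zero v q hq hv hs))
    (Psu_map_ne v q hq (a_ne_zero v q hq hv))

theorem mem_VI_u (hv : dsc v q hq) (f : MvPolynomial (Low n) ℂ) :
    f ∈ VI (SS 1 (v * sr q hq)) ↔ psu v q hq f = 0 := by
  obtain ⟨c, hc, hcE⟩ := exists_gamE (n := n) q hq
  rw [psu_eq, psv_eq_toPoly v q hq c hcE]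
  refine Iff.trans ?_ (VI_Seq (Tb 1 v q hq) (aP 1 v q hq) (bP 1 v q hq)
    (ab_ne_zero 1 v q hq hv) (a_ne_zero v q hq hv) (c.E f))
  rw [mem_vanishingIdeal_iff, mem_vanishingIdeal_iff]
  constructor
  · intro h y hy
    rw [c.aeval_E, hc]
    exact h _ ((gam_mem_eq 1 v q hq (asc_one q hq) hv y).2 hy)
  · intro h z hz
    obtain ⟨y, rfl⟩ := c.g_surj z
    rw [← c.aeval_E]
    rw [hc] at hz
    exact h _ ((gam_mem_eq 1 v q hq (asc_one q hq) hv y).1 hz)

theorem Psu_toPoly' (c : CoordChange (Low n) (Option (Kap n q hq)))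
    (hc : ∀ e, c.E (X e) = gam' (fun i => (X i : MvPolynomial (Option (Kap n q hq)) ℂ)) e)
    (f : MvPolynomial (Low n) ℂ) :
    pss v q hq f = Polynomial.aeval (tq v q hq)⁻¹ (toPoly (Tb 1 v q hq) (c.E f)) := by
  have h : pss v q hq = (((Polynomial.aeval (R := CR (Tb 1 v q hq))
      (tq v q hq)⁻¹).restrictScalars ℂ).comp (toPoly (Tb 1 v q hq))).comp
        (c.E : MvPolynomial (Low n) ℂ →ₐ[ℂ] MvPolynomial (Option (Kap n q hq)) ℂ) := by
    apply MvPolynomial.algHom_ext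
    intro e
    rw [AlgHom.comp_apply, AlgHom.comp_apply, pss, aeval_X, AlgHom.restrictScalars_apply]
    have e1 : (c.E : MvPolynomial (Low n) ℂ →ₐ[ℂ] MvPolynomial (Option (Kap n q hq)) ℂ) (X e) =
        gam' (fun i => (X i : MvPolynomial (Option (Kap n q hq)) ℂ)) e := hc e
    rw [e1]
    have h1 := map_gam' ((Polynomial.aeval (R := CR (Tb 1 v q hq))
      (tq v q hq)⁻¹).toRingHom.comp (toPoly (Tb 1 v q hq)).toRingHom)
      (fun i => (X i : MvPolynomial (Option (Kap n q hq)) ℂ)) e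
    refine Eq.trans ?_ h1.symm
    congr 1
    funext i
    have e2 : ((Polynomial.aeval (R := CR (Tb 1 v q hq))
      (tq v q hq)⁻¹).toRingHom.comp (toPoly (Tb 1 v q hq)).toRingHom)
        (X i : MvPolynomial (Option (Kap n q hq)) ℂ) =
        Polynomial.aeval (R := CR (Tb 1 v q hq)) (tq v q hq)⁻¹
          (toPoly (Tb 1 v q hq) (X i)) := rfl
    rw [e2, toPoly, aeval_X]
    cases i with
    | none => exact (Polynomial.aeval_X _).symm
    | some j => exact (Polynomial.aeval_C _ _).symm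
  rw [h]
  rfl

theorem mem_VI_s (hv : dsc v q hq) (hs : ble (sr q hq) (v * sr q hq))
    (f : MvPolynomial (Low n) ℂ) :
    f ∈ VI (SS (sr q hq) (v * sr q hq)) ↔ pss v q hq f = 0 := by
  obtain ⟨c, hc, hcE⟩ := exists_gamE' (n := n) q hq
  rw [Psu_toPoly' v q hq c hcE]
  have ht : (tq v q hq)⁻¹ = tau (Tb 1 v q hq) (bP 1 v q hq) (aP 1 v q hq) := by
    unfold tq tau
    exact inv_div _ _
  rw [ht]
  refine Iff.trans ?_ (VI_Seq (Tb 1 v q hq) (bP 1 v q hq) (aP 1 v q hq)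
    (Psu_ba v q hq hv) (b_ne_zero v q hq hv hs) (c.E f))
  rw [mem_vanishingIdeal_iff, mem_vanishingIdeal_iff]
  constructor
  · intro h y hy
    rw [c.aeval_E, hc]
    exact h _ ((Psu_mem_eq' v q hq hv y).2 hy)
  · intro h z hz
    obtain ⟨y, rfl⟩ := c.g_surj z
    rw [← c.aeval_E]
    rw [hc] at hz
    exact h _ ((Psu_mem_eq' v q hq hv y).1 hz)

theorem range_psu (y : FractionRing (CR (Tb 1 v q hq))) :
    (∃ f, psu v q hq f = y) ↔ y ∈ Algebra.adjoin (CR (Tb 1 v q hq)) {tq v q hq} := by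
  rw [Algebra.adjoin_singleton_eq_range_aeval, AlgHom.mem_range]
  constructor
  · rintro ⟨f, rfl⟩
    exact ⟨psv v q hq f, (psu_eq v q hq f).symm⟩
  · rintro ⟨p, rfl⟩
    obtain ⟨f, rfl⟩ := psv_surjective v q hq p
    exact ⟨f, psu_eq v q hq f⟩

theorem range_pss (y : FractionRing (CR (Tb 1 v q hq))) :
    (∃ f, pss v q hq f = y) ↔ y ∈ Algebra.adjoin (CR (Tb 1 v q hq)) {(tq v q hq)⁻¹} := by
  rw [Algebra.adjoin_singleton_eq_range_aeval, AlgHom.mem_range]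
  obtain ⟨c, hc, hcE⟩ := exists_gamE' (n := n) q hq
  constructor
  · rintro ⟨f, rfl⟩
    exact ⟨_, (Psu_toPoly' v q hq c hcE f).symm⟩
  · rintro ⟨p, rfl⟩
    obtain ⟨g, rfl⟩ := toPoly_surjective (Tb 1 v q hq) p
    refine ⟨c.E.symm g, ?_⟩
    rw [Psu_toPoly' v q hq c hcE, AlgEquiv.apply_symm_apply]

theorem BU_mul (u' : Equiv.Perm (Fin n)) (x : FractionRing (CR (Tb 1 v q hq)))
    (hx : x ∈ BU v q hq u') : x * tq v q hq ∈ BU v q hq u' := by
  obtain ⟨f, hf, rfl⟩ := hx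
  obtain ⟨g, hg⟩ := (range_psu v q hq (tq v q hq)).2
    (Algebra.subset_adjoin (Set.mem_singleton _))
  refine ⟨f * g, Ideal.mul_mem_right _ _ hf, ?_⟩
  rw [map_mul, hg]

end CMT
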