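import Pool.Agent.H43.CM.H.Tb

/-!
# MP_7fe4b4_ag, job H-Psv : the map `psv : A → R[X]`

`T = Tb 1 v q hq`, `c` from `exists_gamE q hq`.  First: `psv f = toPoly T (c.E f)` for all `f`: both are algebra maps; on
variables: `c.E (X e) = gam X e` and `toPoly T (gam X e) = gam (toPoly ∘ X) e` (`map_gam`), and `toPoly T (X i) = pt T X i`
(both are `X` for `i = none` and `C (mk (X j))` for `i = some j`; `algebraMap (CR T) (CR T)[X] = C`).
* `psv_surjective`: `toPoly_surjective`, `c.E` bijective.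
* `psv_orig`: `f ∈ span (range X) ↔ c.E f ∈ span (range X)` (`c.map_orig`, `c.E` an isomorphism), and for `F ∈ MvPolynomial (Option κ) ℂ`:
  `F ∈ span (range X) ↔ toPoly T F ∈ (orig T).map C ⊔ span {X}`.  `→`: generators.  `←`: the preimage of the right side under the
  surjection `toPoly T` is `span (range X) + ker (toPoly T)`, and `ker (toPoly T) = VI (Sne T a b)` (`VI_Sne`, `ab_ne_zero`)
  `= c.E (VI (SS 1 v))` is contained in `span (range X)` by `VI_SS_le_orig` (`SS 1 v` nonempty) and `c.map_orig`.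
* `psv_coeff`: `f ∈ VI (SS 1 v') ↔ c.E f ∈ VI (Sne (Tb 1 v') a' b')` (`gam_mem_ne`, `c.aeval_E`, `c.g_surj`)
  `↔ toPoly (Tb 1 v') (c.E f) = 0` (`VI_Sne`).  There is the ring map `CR (Tb 1 v) → CR (Tb 1 v')` (`Ideal.Quotient.factor (VI_Tb_le ..)`), with kernel
  `Pb v q hq v'`, and `toPoly (Tb 1 v') F = Polynomial.map (factor) (toPoly (Tb 1 v) F)`; so `toPoly (Tb 1 v') F = 0` iff all
  coefficients of `toPoly (Tb 1 v) F` are in `Pb`.
-/

open MvPolynomial

noncomputable section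

namespace CMT

variable {n : ℕ}

private theorem psv_pt {κ : Type} (T : Set (κ → ℂ)) (i : Option κ) :
    pt T (Polynomial.X : Polynomial (CR T)) i = toPoly T (X i) := by
  unfold toPoly
  rw [aeval_X]
  cases i with
  | none => rfl
  | some j => rfl

theorem psv_eq_toPoly (v : Equiv.Perm (Fin n)) (q : ℕ) (hq : q + 1 < n)
    (c : CoordChange (Low n) (Option (Kap n q hq)))
    (hc : ∀ e, c.E (X e) = gam (fun i => (X i : MvPolynomial (Option (Kap n q hq)) ℂ)) e)
    (f : MvPolynomial (Low n) ℂ) : psv v q hq f = toPoly (Tb 1 v q hq) (c.E f) := by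
  have h : psv v q hq = (toPoly (Tb 1 v q hq)).comp
      (c.E : MvPolynomial (Low n) ℂ →ₐ[ℂ] MvPolynomial (Option (Kap n q hq)) ℂ) := by
    apply MvPolynomial.algHom_ext
    intro e
    show psv v q hq (X e) = toPoly (Tb 1 v q hq) (c.E (X e))
    unfold psv
    rw [aeval_X, hc]
    have h1 := map_gam (S := Polynomial (CR (Tb 1 v q hq)))
      ((toPoly (Tb 1 v q hq)).toRingHom) (q := q) (hq := hq)
      (fun i => (X i : MvPolynomial (Option (Kap n q hq)) ℂ)) e
    refine Eq.trans ?_ h1.symm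
    congr 1
    funext i
    exact psv_pt (Tb 1 v q hq) i
  rw [h]
  rfl

theorem psv_surjective (v : Equiv.Perm (Fin n)) (q : ℕ) (hq : q + 1 < n) :
    Function.Surjective (psv v q hq) := by
  obtain ⟨c, -, hc⟩ := exists_gamE (n := n) q hq
  intro g
  obtain ⟨F, hF⟩ := toPoly_surjective (Tb 1 v q hq) g
  refine ⟨c.E.symm F, ?_⟩
  rw [psv_eq_toPoly v q hq c hc, AlgEquiv.apply_symm_apply, hF]

private theorem psv_map_toPoly {κ : Type} (T : Set (κ → ℂ)) :
    (Ideal.span (Set.range (X : Option κ → MvPolynomial (Option κ) ℂ))).map (toPoly T).toRingHom =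
      (orig T).map Polynomial.C ⊔ Ideal.span {Polynomial.X} := by
  unfold orig
  rw [Ideal.map_span, Ideal.map_span, ← Ideal.span_union]
  congr 1
  ext g
  simp only [Set.mem_image, Set.mem_range, Set.mem_union, Set.mem_singleton_iff]
  constructor
  · rintro ⟨_, ⟨i, rfl⟩, rfl⟩
    cases i with
    | none =>
      right
      exact (psv_pt T none).symm
    | some j =>
      left
      exact ⟨_, ⟨j, rfl⟩, psv_pt T (some j)⟩
  · rintro (⟨_, ⟨j, rfl⟩, rfl⟩ | rfl)
    · exact ⟨_, ⟨some j, rfl⟩, (psv_pt T (some j)).symm⟩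
    · exact ⟨_, ⟨none, rfl⟩, (psv_pt T none).symm⟩

theorem psv_orig (v : Equiv.Perm (Fin n)) (q : ℕ) (hq : q + 1 < n) (hv : dsc v q hq)
    (f : MvPolynomial (Low n) ℂ) :
    f ∈ Ideal.span (Set.range (X : Low n → MvPolynomial (Low n) ℂ)) ↔
      psv v q hq f ∈ (orig (Tb 1 v q hq)).map Polynomial.C ⊔ Ideal.span {Polynomial.X} := by
  obtain ⟨c, hc1, hc⟩ := exists_gamE (n := n) q hq
  rw [psv_eq_toPoly v q hq c hc, ← psv_map_toPoly]
  have hE : ∀ g, g ∈ Ideal.span (Set.range (X : Low n → MvPolynomial (Low n) ℂ)) ↔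
      c.E g ∈ Ideal.span (Set.range
        (X : Option (Kap n q hq) → MvPolynomial (Option (Kap n q hq)) ℂ)) := by
    intro g
    rw [← c.map_orig]
    have h1 : c.E g ∈ (Ideal.span (Set.range (X : Low n → MvPolynomial (Low n) ℂ))).map
        (c.E : MvPolynomial (Low n) ℂ →+* MvPolynomial (Option (Kap n q hq)) ℂ) ↔
        ∃ x ∈ Ideal.span (Set.range (X : Low n → MvPolynomial (Low n) ℂ)), c.E x = c.E g :=
      Ideal.mem_map_of_equiv c.E (c.E g)
    rw [h1]
    constructor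
    · intro h
      exact ⟨g, h, rfl⟩
    · rintro ⟨x, hx, h⟩
      rw [← c.E.injective h]
      exact hx
  have hVI : VI (Sne (Tb 1 v q hq) (aP 1 v q hq) (bP 1 v q hq)) ≤ Ideal.span (Set.range
        (X : Option (Kap n q hq) → MvPolynomial (Option (Kap n q hq)) ℂ)) := by
    intro F hF
    have h2 : c.E.symm F ∈ VI (SS 1 v) := by
      rw [mem_vanishingIdeal_iff] at hF ⊢
      intro z hz
      obtain ⟨y, rfl⟩ := c.g_surj z
      rw [← c.aeval_E, AlgEquiv.apply_symm_apply]
      apply hF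
      rw [hc1] at hz
      exact (gam_mem_ne 1 v q hq (asc_one q hq) hv y).1 hz
    have h3 := VI_SS_le_orig (SS_nonempty_of_ble (ble_one v)) h2
    rw [hE, AlgEquiv.apply_symm_apply] at h3
    exact h3
  have hker : RingHom.ker (toPoly (Tb 1 v q hq)).toRingHom ≤ Ideal.span (Set.range
        (X : Option (Kap n q hq) → MvPolynomial (Option (Kap n q hq)) ℂ)) := by
    refine le_trans (le_of_eq ?_) hVI
    rw [VI_Sne _ _ _ (ab_ne_zero 1 v q hq hv)]
    rfl
  rw [hE]
  constructor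
  · intro h
    exact Ideal.mem_map_of_mem (toPoly (Tb 1 v q hq)).toRingHom h
  · intro h
    have h4 : c.E f ∈ Ideal.comap (toPoly (Tb 1 v q hq)).toRingHom (Ideal.map
      (toPoly (Tb 1 v q hq)).toRingHom (Ideal.span (Set.range
        (X : Option (Kap n q hq) → MvPolynomial (Option (Kap n q hq)) ℂ)))) := h
    rw [Ideal.comap_map_of_surjective' (toPoly (Tb 1 v q hq)).toRingHom
      (toPoly_surjective (Tb 1 v q hq))] at h4
    exact (sup_le le_rfl hker) h4

theorem psv_coeff {v v' : Equiv.Perm (Fin n)} {q : ℕ} {hq : q + 1 < n} (hv : dsc v q hq)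
    (hv' : dsc v' q hq) (h : ble v' v) (f : MvPolynomial (Low n) ℂ) :
    f ∈ VI (SS 1 v') ↔ ∀ i, (psv v q hq f).coeff i ∈ Pb v q hq v' := by
  obtain ⟨c, hc1, hc⟩ := exists_gamE (n := n) q hq
  have h1 : f ∈ VI (SS 1 v') ↔ c.E f ∈ VI (Sne (Tb 1 v' q hq) (aP 1 v' q hq) (bP 1 v' q hq)) := by
    rw [mem_vanishingIdeal_iff, mem_vanishingIdeal_iff]
    constructor
    · intro h1 y hy
      rw [c.aeval_E, hc1]
      exact h1 _ ((gam_mem_ne 1 v' q hq (asc_one q hq) hv' y).2 hy)
    · intro h1 z hz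
      obtain ⟨y, rfl⟩ := c.g_surj z
      rw [← c.aeval_E]
      apply h1
      rw [hc1] at hz
      exact (gam_mem_ne 1 v' q hq (asc_one q hq) hv' y).1 hz
  rw [h1, VI_Sne _ _ _ (ab_ne_zero 1 v' q hq hv'), RingHom.mem_ker, toPoly_apply,
    Polynomial.ext_iff]
  apply forall_congr'
  intro i
  rw [Polynomial.coeff_map, Polynomial.coeff_zero, Ideal.Quotient.eq_zero_iff_mem,
    psv_eq_toPoly v q hq c hc, toPoly_apply, Polynomial.coeff_map, mk_mem_Pb hv hv' h]

end CMT
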