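import Pool.Agent.H43.CM.H.Defs
import Pool.Agent.H43.CM.D.Ind

/-!
# MP_7fe4b4_ag, job H-Tb : the rings `CR (Tb ..)` and the ideals `P̄_{v'}`

* `asc_one`: `asc 1 q` unfolds to `q0 q hq < q1 q hq`.
* `good_Tb`: let `m = len w - 1`; `w` has a descent at `q` so `len w = m + 1` (`len_mul_dsc`).  `good_all x w h : Good (SS x w) (m+1)`.
  Take `c` from `exists_gamE`; `c.good_iff (SS x w) (Sne (Tb x w q hq) a b)` with `gam_mem_ne` (as in the proof of `good_all` in D/Ind.lean) gives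
  `Good (Sne (Tb x w) a b) (m+1)`; `good_of_Sne` (with `ab_ne_zero`) gives `Good (Tb x w q hq) m`.
* `VI_Tb_le`: for `dsc v`, `dsc v'`, `ble v' v`: `VI (Tb 1 v) ≤ VI (Tb 1 v')`.  Let `f ∈ VI (Tb 1 v)` and `F = rename some f ∈
  MvPolynomial (Option κ) ℂ`.  `F ∈ VI (Sne (Tb 1 v) a b)` (a point of `Sne` has its `κ`-part in `Tb 1 v`).  With `c` from `exists_gamE`, `G := c.E.symm F`
  lies in `VI (SS 1 v)` (points of `SS 1 v` are `gam y` with `y ∈ Sne (Tb 1 v)`: `c.g_surj`, `gam_mem_ne`; `aeval (gam y) G = aeval y F`).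
  By `VI_le_of_ble` `G ∈ VI (SS 1 v')`, so `F ∈ VI (Sne (Tb 1 v') a' b')`.  By `VI_Sne`, `toPoly (Tb 1 v') F = 0`; and
  `toPoly (rename some f) = C (mk f)`, so `f ∈ VI (Tb 1 v')`.
  (Or pointwise: for `y0 ∈ Tb 1 v'` there are infinitely many, so at least one, `t` with `(y0,t) ∈ Sne`, by `ab_ne_zero`.)
* `mk_mem_Pb`: the image of an ideal containing the kernel (`VI_Tb_le`).
* `Pb_isPrime`: `CR (Tb 1 v')` is a domain (`good_Tb`, `SS_nonempty_of_ble (ble_one v')`), so `VI (Tb 1 v')` is prime;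
  `Ideal.map_isPrime_of_surjective`.
-/

open MvPolynomial

noncomputable section

namespace CMT

variable {n : ℕ}

theorem asc_one (q : ℕ) (hq : q + 1 < n) : asc (1 : Equiv.Perm (Fin n)) q hq := by
  show q0 q hq < q1 q hq
  exact Fin.mk_lt_mk.2 (Nat.lt_succ_self q)

theorem good_Tb {x w : Equiv.Perm (Fin n)} {q : ℕ} {hq : q + 1 < n} (hx : asc x q hq)
    (hw : dsc w q hq) (h : (SS x w).Nonempty) : Good (Tb x w q hq) (len w - 1) := by
  obtain ⟨c, hc, -⟩ := exists_gamE (n := n) q hq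
  have hab := ab_ne_zero x w q hq hw
  have e1 := c.good_iff (SS x w) (Sne (Tb x w q hq) (aP x w q hq) (bP x w q hq))
    (by intro y; rw [hc]; exact (gam_mem_ne x w q hq hx hw y).symm) (len w)
  have hlen := len_mul_dsc w q hq hw
  apply good_of_Sne _ _ _ hab
  have h1 : len w - 1 + 1 = len w := by omega
  rw [h1, ← e1]
  exact good_all x w h

theorem Tb_dom (v : Equiv.Perm (Fin n)) (q : ℕ) (hq : q + 1 < n) (hv : dsc v q hq) :
    IsDomain (CR (Tb 1 v q hq)) :=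
  (good_Tb (asc_one q hq) hv (SS_nonempty_of_ble (ble_one v))).1

theorem Tb_int (v : Equiv.Perm (Fin n)) (q : ℕ) (hq : q + 1 < n) (hv : dsc v q hq) :
    IsIntegrallyClosed (CR (Tb 1 v q hq)) :=
  (good_Tb (asc_one q hq) hv (SS_nonempty_of_ble (ble_one v))).2.1

theorem VI_Tb_le {v v' : Equiv.Perm (Fin n)} {q : ℕ} {hq : q + 1 < n} (hv : dsc v q hq)
    (hv' : dsc v' q hq) (h : ble v' v) : VI (Tb 1 v q hq) ≤ VI (Tb 1 v' q hq) := by
  intro f hf
  obtain ⟨c, hc, -⟩ := exists_gamE (n := n) q hq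
  rw [mem_vanishingIdeal_iff] at hf ⊢
  intro y0 hy0
  obtain ⟨t, ht⟩ := (infinite_t (ab_ne_zero 1 v' q hq hv' y0 hy0)).nonempty
  have hG : c.E.symm (rename some f) ∈ VI (SS 1 v) := by
    rw [mem_vanishingIdeal_iff]
    intro z hz
    obtain ⟨y, rfl⟩ := c.g_surj z
    rw [← c.aeval_E, AlgEquiv.apply_symm_apply, aeval_rename]
    rw [hc] at hz
    exact hf _ ((gam_mem_ne 1 v q hq (asc_one q hq) hv y).1 hz).1
  have hG' := VI_le_of_ble h hG
  rw [mem_vanishingIdeal_iff] at hG'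
  have h1 : gam (cons y0 t) ∈ SS 1 v' :=
    (gam_mem_ne 1 v' q hq (asc_one q hq) hv' (cons y0 t)).2 ⟨hy0, ht⟩
  rw [← hc] at h1
  have h2 := hG' _ h1
  rw [← c.aeval_E, AlgEquiv.apply_symm_apply, aeval_rename] at h2
  exact h2

theorem mk_mem_Pb {v v' : Equiv.Perm (Fin n)} {q : ℕ} {hq : q + 1 < n} (hv : dsc v q hq)
    (hv' : dsc v' q hq) (h : ble v' v) (f : MvPolynomial (Kap n q hq) ℂ) :
    Ideal.Quotient.mk (VI (Tb 1 v q hq)) f ∈ Pb v q hq v' ↔ f ∈ VI (Tb 1 v' q hq) := by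
  unfold Pb
  constructor
  · intro h1
    have h2 : f ∈ Ideal.comap (Ideal.Quotient.mk (VI (Tb 1 v q hq)))
      (Ideal.map (Ideal.Quotient.mk (VI (Tb 1 v q hq))) (VI (Tb 1 v' q hq))) := h1
    rw [Ideal.comap_map_of_surjective' _ Ideal.Quotient.mk_surjective, Ideal.mk_ker] at h2
    exact (sup_le le_rfl (VI_Tb_le hv hv' h)) h2
  · intro h1
    exact Ideal.mem_map_of_mem _ h1

theorem Pb_isPrime {v v' : Equiv.Perm (Fin n)} {q : ℕ} {hq : q + 1 < n} (hv : dsc v q hq)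
    (hv' : dsc v' q hq) (h : ble v' v) : (Pb v q hq v').IsPrime := by
  have h1 : (VI (Tb 1 v' q hq)).IsPrime :=
    (Ideal.Quotient.isDomain_iff_prime _).1 (Tb_dom v' q hq hv')
  unfold Pb
  apply Ideal.map_isPrime_of_surjective Ideal.Quotient.mk_surjective
  rw [Ideal.mk_ker]
  exact VI_Tb_le hv hv' h

end CMT
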